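import Pool.Agent.H348.VH.Clus

/-!
# Bridges of ordered trees with a noncyclic group of automorphisms
-/

set_option autoImplicit false

namespace Pool.Agent.H348.VH

open Function Set Relation

variable {W : Type*} [LinearOrder W] {T : SimpleGraph W}

variable (T) in
/-- the edge `xy` is a bridge of `P`: the clusters of its ends below the edge are infinite -/
def Bridge (P : Set W) (x y : W) : Prop :=
  T.Adj x y ∧ x ∈ P ∧ y ∈ P ∧ (Cl T P (ek x y) x).Infinite ∧ (Cl T P (ek x y) y).Infinite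

theorem Bridge.mono {P P' : Set W} (hP : P ⊆ P') {x y : W} (h : Bridge T P x y) :
    Bridge T P' x y :=
  ⟨h.1, hP h.2.1, hP h.2.2.1, h.2.2.2.1.mono (Cl.mono hP le_rfl _),
    h.2.2.2.2.mono (Cl.mono hP le_rfl _)⟩

theorem Bridge.symm {P : Set W} {x y : W} (h : Bridge T P x y) : Bridge T P y x :=
  ⟨h.1.symm, h.2.2.1, h.2.1, by rw [ek_comm]; exact h.2.2.2.2, by rw [ek_comm]; exact h.2.2.2.1⟩

theorem Bridge.map {P P' : Set W} {σ : Equiv.Perm W} (h : Iso T P P' σ) {x y : W}
    (hb : Bridge T P x y) : Bridge T P' (σ x) (σ y) := by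
  obtain ⟨h1, h2, h3, h4, h5⟩ := hb
  refine ⟨(h.adj _ _).2 h1, (h.mem _).2 h2, (h.mem _).2 h3, ?_, ?_⟩
  · rw [h.cl_eq h2 h3]
    exact h4.image σ.injective.injOn
  · rw [h.cl_eq h2 h3]
    exact h5.image σ.injective.injOn

theorem Bridge.not_dies {P : Set W} {v x y : W} (h : Bridge T P x y) (hv : Dies T P v x y) :
    False := h.2.2.2.1 hv.fin

/-- **two edges with infinite clusters which face away give a bridge** -/
theorem bridge_of (hT : T.IsTree) {P : Set W} (hP : Cvx T P) {x₁ y₁ x₂ y₂ : W}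
    (a1 : T.Adj x₁ y₁) (a2 : T.Adj x₂ y₂) (m1 : y₁ ∈ P) (m2 : y₂ ∈ P)
    (h1 : (Cl T P (ek x₁ y₁) y₁).Infinite) (h2 : (Cl T P (ek x₂ y₂) y₂).Infinite)
    (s1 : ¬ Sd T x₁ y₁ y₂) (s2 : ¬ Sd T x₂ y₂ y₁) : ∃ x y, Bridge T P x y := by
  obtain ⟨u, u0, uL, hadj, hd⟩ := geod hT y₁ y₂
  obtain ⟨L, hL⟩ : ∃ L, L = T.dist y₁ y₂ := ⟨_, rfl⟩
  rw [← hL] at uL hadj hd
  have c : ∀ p q : W, T.dist p q = T.dist q p := fun p q => SimpleGraph.dist_comm
  rw [not_sd hT a1] at s1
  rw [not_sd hT a2] at s2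
  unfold Sd at s1 s2
  have t1 := tstep hT a1 y₂
  have t2 := tstep hT a2 y₁
  have hL0 : 0 < L := by
    have := c y₁ y₂
    omega
  have hmem : ∀ i ≤ L, u i ∈ P := fun i hi => hP _ m1 _ m2 _ (by
    obtain ⟨h3, h4⟩ := hd i hi
    omega)
  have hinj : ∀ i ≤ L, ∀ j ≤ L, u i = u j → i = j := by
    intro i hi j hj he
    have h3 := (hd i hi).1
    rw [he, (hd j hj).1] at h3
    exact h3.symm
  -- the first and the last edge
  have e1 : u 1 = x₁ := by
    refine tuniq hT (x := y₁) (z := y₂) (by rw [← u0]; exact hadj 0 hL0) a1.symm ?_ ?_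
    · have h3 := (hd 1 (by omega)).2
      have := c y₁ y₂
      have := c (u 1) y₂
      omega
    · have := c y₁ y₂
      omega
  have e2 : u (L - 1) = x₂ := by
    have h5 := hadj (L - 1) (by omega)
    rw [show L - 1 + 1 = L by omega, uL] at h5
    refine tuniq hT (x := y₂) (z := y₁) h5.symm a2.symm ?_ ?_
    · have h3 := (hd (L - 1) (by omega)).1
      omega
    · omega
  -- the edge with the largest key
  obtain ⟨i, hi, hmax⟩ := Finset.exists_max_image (Finset.range L)
    (fun i => ek (u i) (u (i + 1))) ⟨0, by simpa using hL0⟩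
  rw [Finset.mem_range] at hi
  have hlt : ∀ j < L, j ≠ i → ek (u j) (u (j + 1)) < ek (u i) (u (i + 1)) := by
    intro j hj hji
    refine lt_of_le_of_ne (hmax j (by simpa using hj)) fun he => ?_
    rcases ek_inj he with ⟨h3, -⟩ | ⟨h3, h4⟩
    · exact hji (hinj j (by omega) i (by omega) h3)
    · have h5 := hinj j (by omega) (i + 1) (by omega) h3
      have h6 := hinj (j + 1) (by omega) i (by omega) h4
      omega
  refine ⟨u i, u (i + 1), hadj i hi, hmem i (by omega), hmem (i + 1) (by omega), ?_, ?_⟩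
  · have key : ∀ j ≤ i, u j ∈ Cl T P (ek (u i) (u (i + 1))) (u 0) := by
      intro j
      induction j with
      | zero => intro _; exact Cl.refl _
      | succ j ih =>
        intro hj
        exact cl_step (ih (by omega)) ⟨hadj j (by omega), hmem j (by omega),
          hmem (j + 1) (by omega), hlt j (by omega) (by omega)⟩
    rw [cl_eq (key i le_rfl), u0]
    refine h1.mono (Cl.mono subset_rfl ?_ _)
    have := hmax 0 (by simpa using hL0)
    simp only [zero_add, u0, e1] at this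
    rwa [ek_comm]
  · have key : ∀ j, i + 1 + j ≤ L → u (i + 1 + j) ∈ Cl T P (ek (u i) (u (i + 1))) (u (i + 1)) := by
      intro j
      induction j with
      | zero => intro _; exact Cl.refl _
      | succ j ih =>
        intro hj
        exact cl_step (ih (by omega)) ⟨hadj _ (by omega), hmem _ (by omega), hmem _ (by omega),
          hlt _ (by omega) (by omega)⟩
    have h3 := key (L - i - 1) (by omega)
    rw [show i + 1 + (L - i - 1) = L by omega, uL] at h3
    rw [← cl_eq h3]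
    refine h2.mono (Cl.mono subset_rfl ?_ _)
    have := hmax (L - 1) (by simp; omega)
    simp only [e2] at this
    rwa [show L - 1 + 1 = L by omega, uL] at this

namespace Axis

variable {P : Set W} {σ : Equiv.Perm W} {ℓ : ℕ} {a : ℤ → W}

theorem key_inj (h : Axis T P σ ℓ a) {m n : ℤ} (he : ek (a m) (a (m + 1)) = ek (a n) (a (n + 1))) :
    m = n := by
  rcases ek_inj he with ⟨h1, -⟩ | ⟨h1, h2⟩
  · exact h.inj h1
  · have h3 := h.inj h1
    have h4 := h.inj h2
    omega

theorem key_lt (h : Axis T P σ ℓ a) (hσ : Iso T P P σ) (m n : ℤ) :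
    ek (a (m + ℓ)) (a (m + ℓ + 1)) < ek (a (n + ℓ)) (a (n + ℓ + 1)) ↔
      ek (a m) (a (m + 1)) < ek (a n) (a (n + 1)) := by
  rw [show m + ℓ + 1 = m + 1 + ℓ by ring, show n + ℓ + 1 = n + 1 + ℓ by ring, ← h.per, ← h.per,
    ← h.per, ← h.per]
  exact ek_lt hσ.lt (h.mem _) (h.mem _) (h.mem _) (h.mem _)

theorem key_lt_nat (h : Axis T P σ ℓ a) (hσ : Iso T P P σ) (k : ℕ) (m n : ℤ) :
    ek (a (m + k * ℓ)) (a (m + k * ℓ + 1)) < ek (a (n + k * ℓ)) (a (n + k * ℓ + 1)) ↔
      ek (a m) (a (m + 1)) < ek (a n) (a (n + 1)) := by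
  induction k with
  | zero => simp
  | succ k ih =>
    rw [← ih, show m + ((k + 1 : ℕ) : ℤ) * ℓ = m + k * ℓ + ℓ by push_cast; ring,
      show n + ((k + 1 : ℕ) : ℤ) * ℓ = n + k * ℓ + ℓ by push_cast; ring, h.key_lt hσ]

/-- one end of an invariant line lies below an edge -/
theorem good (h : Axis T P σ ℓ a) (hσ : Iso T P P σ) : ∃ m : ℤ,
    (∀ n, m < n → ek (a n) (a (n + 1)) < ek (a m) (a (m + 1))) ∨
    (∀ n, n < m → ek (a n) (a (n + 1)) < ek (a m) (a (m + 1))) := by
  have hpos := h.pos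
  obtain ⟨m, hm, hmax⟩ := Finset.exists_max_image (Finset.range ℓ)
    (fun i : ℕ => ek (a i) (a (i + 1))) ⟨0, by simpa using hpos⟩
  rw [Finset.mem_range] at hm
  have hlt : ∀ j : ℕ, j < ℓ → j ≠ m → ek (a j) (a (j + 1)) < ek (a m) (a (m + 1)) := fun j hj hjm =>
    lt_of_le_of_ne (hmax j (by simpa using hj)) fun he => hjm (by
      have := h.key_inj he
      omega)
  refine ⟨m, ?_⟩
  rcases lt_trichotomy (ek (a (m + ℓ)) (a (m + ℓ + 1))) (ek (a m) (a (m + 1))) with h1 | h1 | h1
  · left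
    have hdec : ∀ k : ℕ, 0 < k →
        ek (a (m + k * ℓ)) (a (m + k * ℓ + 1)) < ek (a m) (a (m + 1)) := by
      intro k hk
      induction k, hk using Nat.le_induction with
      | base => simpa using h1
      | succ k _ ih =>
        refine lt_trans ?_ ih
        rw [show (m : ℤ) + ((k + 1 : ℕ) : ℤ) * ℓ = m + ℓ + k * ℓ by push_cast; ring,
          h.key_lt_nat hσ]
        exact h1
    intro n hn
    obtain ⟨j, k, hj, rfl⟩ : ∃ j k : ℕ, j < ℓ ∧ n = j + k * ℓ := by
      refine ⟨(n % ℓ).toNat, (n / ℓ).toNat, ?_, ?_⟩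
      · have := Int.emod_lt_of_pos n (show (0 : ℤ) < ℓ by omega)
        have := Int.emod_nonneg n (show (ℓ : ℤ) ≠ 0 by omega)
        omega
      · have h2 := Int.emod_nonneg n (show (ℓ : ℤ) ≠ 0 by omega)
        have h3 : 0 ≤ n / ℓ := Int.ediv_nonneg (by omega) (by omega)
        rw [Int.toNat_of_nonneg h2, Int.toNat_of_nonneg h3]
        have := Int.emod_add_mul_ediv n ℓ
        linarith
    rcases Nat.eq_zero_or_pos k with rfl | hk
    · simp only [Nat.cast_zero, zero_mul, add_zero] at hn ⊢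
      exact hlt j hj (by omega)
    · by_cases hjm : j = m
      · rw [hjm]
        exact hdec k hk
      · exact ((h.key_lt_nat hσ k _ _).2 (hlt j hj hjm)).trans (hdec k hk)
  · exfalso
    have := h.key_inj h1
    omega
  · right
    have h1' : ek (a ((m : ℤ) - ℓ)) (a ((m : ℤ) - ℓ + 1)) < ek (a m) (a (m + 1)) := by
      rw [← h.key_lt hσ, sub_add_cancel]
      exact h1
    have hdec : ∀ k : ℕ, 0 < k →
        ek (a (m - k * ℓ)) (a (m - k * ℓ + 1)) < ek (a m) (a (m + 1)) := by
      intro k hk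
      induction k, hk using Nat.le_induction with
      | base => simpa using h1'
      | succ k _ ih =>
        refine lt_trans ?_ ih
        rw [← h.key_lt_nat hσ k, show (m : ℤ) - ((k + 1 : ℕ) : ℤ) * ℓ + k * ℓ = m - ℓ by
          push_cast; ring, sub_add_cancel]
        exact h1'
    intro n hn
    obtain ⟨j, k, hj, rfl⟩ : ∃ j k : ℕ, j < ℓ ∧ n = j - k * ℓ := by
      refine ⟨(n % ℓ).toNat, (-(n / ℓ)).toNat, ?_, ?_⟩
      · have := Int.emod_lt_of_pos n (show (0 : ℤ) < ℓ by omega)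
        have := Int.emod_nonneg n (show (ℓ : ℤ) ≠ 0 by omega)
        omega
      · have h2 := Int.emod_nonneg n (show (ℓ : ℤ) ≠ 0 by omega)
        have h3 : n / ℓ ≤ 0 := by
          have : n / ℓ < 1 := Int.ediv_lt_of_lt_mul (by omega) (by omega)
          omega
        rw [Int.toNat_of_nonneg h2, Int.toNat_of_nonneg (by omega)]
        have := Int.emod_add_mul_ediv n ℓ
        linarith
    rcases Nat.eq_zero_or_pos k with rfl | hk
    · simp only [Nat.cast_zero, zero_mul, sub_zero] at hn ⊢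
      exact hlt j hj (by omega)
    · by_cases hjm : j = m
      · rw [hjm]
        exact hdec k hk
      · refine lt_trans ?_ (hdec k hk)
        rw [← h.key_lt_nat hσ k, sub_add_cancel, sub_add_cancel]
        exact hlt j hj hjm

end Axis

end Pool.Agent.H348.VH
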