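import Pool.Agent.H348.VH.Tree

/-!
# Clusters of edges below a threshold in an ordered forest

The vertices are linearly ordered, and the edges are ordered lexicographically by the larger and the
smaller end.  The clusters are the components of the subgraphs of the edges below a threshold.
-/

set_option autoImplicit false

namespace Pool.Agent.H348.VH

open Function Set Relation

variable {W : Type*} [LinearOrder W] {T : SimpleGraph W}

/-- the key of an edge -/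
def ek (x y : W) : W ×ₗ W := toLex (max x y, min x y)

theorem ek_comm (x y : W) : ek x y = ek y x := by
  unfold ek
  rw [max_comm, min_comm]

theorem ek_inj {x y x' y' : W} (h : ek x y = ek x' y') :
    (x = x' ∧ y = y') ∨ (x = y' ∧ y = x') := by
  unfold ek at h
  have h' := toLex.injective h
  rw [Prod.mk.injEq] at h'
  obtain ⟨h1, h2⟩ := h'
  rcases le_total x y with h3 | h3 <;> rcases le_total x' y' with h4 | h4 <;>
    simp only [h3, h4, max_eq_left, max_eq_right, min_eq_left, min_eq_right] at h1 h2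
  · exact Or.inl ⟨h2, h1⟩
  · exact Or.inr ⟨h2, h1⟩
  · exact Or.inr ⟨h1, h2⟩
  · exact Or.inl ⟨h1, h2⟩

theorem ek_lt {x y x' y' : W} {σ : W → W} {P : Set W} (hσ : ∀ x ∈ P, ∀ y ∈ P, (σ x < σ y ↔ x < y))
    (hx : x ∈ P) (hy : y ∈ P) (hx' : x' ∈ P) (hy' : y' ∈ P) :
    ek (σ x) (σ y) < ek (σ x') (σ y') ↔ ek x y < ek x' y' := by
  have hle : ∀ a ∈ P, ∀ b ∈ P, (σ a ≤ σ b ↔ a ≤ b) := fun a ha b hb => by
    rw [← not_lt, ← not_lt, hσ b hb a ha]
  have heq : ∀ a ∈ P, ∀ b ∈ P, (σ a = σ b ↔ a = b) := fun a ha b hb => by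
    rw [le_antisymm_iff, le_antisymm_iff, hle a ha b hb, hle b hb a ha]
  have mx : ∀ a ∈ P, ∀ b ∈ P, max (σ a) (σ b) = σ (max a b) ∧ min (σ a) (σ b) = σ (min a b) ∧
      max a b ∈ P ∧ min a b ∈ P := by
    intro a ha b hb
    rcases le_total a b with h | h
    · have h' := (hle a ha b hb).2 h
      rw [max_eq_right h, max_eq_right h', min_eq_left h, min_eq_left h']
      exact ⟨rfl, rfl, hb, ha⟩
    · have h' := (hle b hb a ha).2 h
      rw [max_eq_left h, max_eq_left h', min_eq_right h, min_eq_right h']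
      exact ⟨rfl, rfl, ha, hb⟩
  obtain ⟨a1, a2, a3, a4⟩ := mx x hx y hy
  obtain ⟨b1, b2, b3, b4⟩ := mx x' hx' y' hy'
  unfold ek
  rw [Prod.Lex.toLex_lt_toLex, Prod.Lex.toLex_lt_toLex]
  simp only [a1, a2, b1, b2]
  rw [hσ _ a3 _ b3, heq _ a3 _ b3, hσ _ a4 _ b4]

variable (T) in
/-- a step in `P` along an edge below the threshold -/
def St (P : Set W) (k : W ×ₗ W) (u w : W) : Prop := T.Adj u w ∧ u ∈ P ∧ w ∈ P ∧ ek u w < k

variable (T) in
/-- the cluster of a vertex -/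
def Cl (P : Set W) (k : W ×ₗ W) (y : W) : Set W := {z | ReflTransGen (St T P k) y z}

theorem Cl.refl {P : Set W} {k : W ×ₗ W} (y : W) : y ∈ Cl T P k y := ReflTransGen.refl

theorem St.symm {P : Set W} {k : W ×ₗ W} {u w : W} (h : St T P k u w) : St T P k w u :=
  ⟨h.1.symm, h.2.2.1, h.2.1, by rw [ek_comm]; exact h.2.2.2⟩

theorem cl_symm {P : Set W} {k : W ×ₗ W} {y z : W} (h : z ∈ Cl T P k y) : y ∈ Cl T P k z := by
  induction h with
  | refl => exact ReflTransGen.refl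
  | tail _ h2 ih => exact ReflTransGen.head h2.symm ih

theorem cl_trans {P : Set W} {k : W ×ₗ W} {x y z : W} (h : y ∈ Cl T P k x) (h' : z ∈ Cl T P k y) :
    z ∈ Cl T P k x := ReflTransGen.trans h h'

theorem cl_eq {P : Set W} {k : W ×ₗ W} {y z : W} (h : z ∈ Cl T P k y) :
    Cl T P k z = Cl T P k y := by
  ext w
  exact ⟨fun hw => cl_trans h hw, fun hw => cl_trans (cl_symm h) hw⟩

theorem cl_step {P : Set W} {k : W ×ₗ W} {y z w : W} (h : z ∈ Cl T P k y) (zw : St T P k z w) :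
    w ∈ Cl T P k y := ReflTransGen.tail h zw

theorem Cl.mono {P P' : Set W} (hP : P ⊆ P') {k k' : W ×ₗ W} (hk : k ≤ k') (y : W) :
    Cl T P k y ⊆ Cl T P' k' y := by
  intro z hz
  induction hz with
  | refl => exact ReflTransGen.refl
  | tail _ h ih => exact ReflTransGen.tail ih ⟨h.1, hP h.2.1, hP h.2.2.1, h.2.2.2.trans_le hk⟩

theorem Cl.sub {P : Set W} {k : W ×ₗ W} {y : W} (hy : y ∈ P) : Cl T P k y ⊆ P := by
  intro z hz
  induction hz with
  | refl => exact hy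
  | tail _ h _ => exact h.2.2.1

/-- a cluster is contained in a set which is not left by edges below the threshold -/
theorem Cl.closed {P : Set W} {k : W ×ₗ W} {y : W} {N : Set W} (hy : y ∈ N)
    (hN : ∀ u w, T.Adj u w → u ∈ N → w ∈ P → w ∉ N → k ≤ ek u w) : Cl T P k y ⊆ N := by
  intro z hz
  induction hz with
  | refl => exact hy
  | @tail u w _ h ih =>
    by_contra hc
    exact absurd (hN u w h.1 ih h.2.2.1 hc) (not_le.2 h.2.2.2)

/-- `σ` maps `P` to `P'` and preserves adjacency, and the order on `P` -/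
structure Iso (T : SimpleGraph W) (P P' : Set W) (σ : Equiv.Perm W) : Prop where
  adj : ∀ x y, T.Adj (σ x) (σ y) ↔ T.Adj x y
  mem : ∀ x, σ x ∈ P' ↔ x ∈ P
  lt : ∀ x ∈ P, ∀ y ∈ P, (σ x < σ y ↔ x < y)

theorem Iso.le {P P' : Set W} {σ : Equiv.Perm W} (h : Iso T P P' σ) {x y : W} (hx : x ∈ P)
    (hy : y ∈ P) : σ x ≤ σ y ↔ x ≤ y := by
  rw [← not_lt, ← not_lt, h.lt y hy x hx]

theorem Iso.st {P P' : Set W} {σ : Equiv.Perm W} (h : Iso T P P' σ) {x y : W} (hx : x ∈ P)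
    (hy : y ∈ P) {u w : W} : St T P' (ek (σ x) (σ y)) (σ u) (σ w) ↔ St T P (ek x y) u w := by
  unfold St
  rw [h.adj, h.mem, h.mem]
  refine and_congr_right fun _ => and_congr_right fun hu => and_congr_right fun hw => ?_
  exact ek_lt h.lt hu hw hx hy

theorem Iso.cl {P P' : Set W} {σ : Equiv.Perm W} (h : Iso T P P' σ) {x y : W} (hx : x ∈ P)
    (hy : y ∈ P) {v w : W} : σ w ∈ Cl T P' (ek (σ x) (σ y)) (σ v) ↔ w ∈ Cl T P (ek x y) v := by
  constructor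
  · have key : ∀ z, z ∈ Cl T P' (ek (σ x) (σ y)) (σ v) → σ.symm z ∈ Cl T P (ek x y) v := by
      intro z hz
      induction hz with
      | refl => rw [σ.symm_apply_apply]; exact Cl.refl _
      | @tail u w _ h2 ih =>
        refine cl_step ih ?_
        rw [← h.st hx hy, σ.apply_symm_apply, σ.apply_symm_apply]
        exact h2
    intro hw
    have := key _ hw
    rwa [σ.symm_apply_apply] at this
  · intro hw
    induction hw with
    | refl => exact Cl.refl _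
    | @tail u w _ h2 ih => exact cl_step ih ((h.st hx hy).2 h2)

theorem Iso.cl_eq {P P' : Set W} {σ : Equiv.Perm W} (h : Iso T P P' σ) {x y : W} (hx : x ∈ P)
    (hy : y ∈ P) (v : W) : Cl T P' (ek (σ x) (σ y)) (σ v) = σ '' Cl T P (ek x y) v := by
  ext z
  constructor
  · intro hz
    refine ⟨σ.symm z, ?_, σ.apply_symm_apply z⟩
    rw [← h.cl hx hy, σ.apply_symm_apply]
    exact hz
  · rintro ⟨w, hw, rfl⟩
    exact (h.cl hx hy).2 hw

variable (T) in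
/-- the vertex `v` dies at the edge `xy`: it is the smallest vertex of the finite cluster of `x` below
the edge, and the cluster of `y` is infinite or contains a smaller vertex -/
structure Dies (P : Set W) (v x y : W) : Prop where
  adj : T.Adj x y
  hx : x ∈ P
  hy : y ∈ P
  mem : v ∈ Cl T P (ek x y) x
  fin : (Cl T P (ek x y) x).Finite
  min : ∀ z ∈ Cl T P (ek x y) x, v ≤ z
  oth : (Cl T P (ek x y) y).Infinite ∨ ∃ z ∈ Cl T P (ek x y) y, z < v

theorem Dies.uniq {P : Set W} {v w x y : W} (hv : Dies T P v x y) (hw : Dies T P w x y) : v = w :=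
  le_antisymm (hv.min w hw.mem) (hw.min v hv.mem)

theorem Dies.not_rev {P : Set W} {v w x y : W} (hv : Dies T P v x y) (hw : Dies T P w y x) :
    False := by
  have h1 : w < v := by
    rcases hv.oth with h | ⟨z, hz, hzv⟩
    · rw [ek_comm] at h
      exact absurd hw.fin h
    · rw [ek_comm] at hz
      exact (hw.min z hz).trans_lt hzv
  have h2 : v < w := by
    rcases hw.oth with h | ⟨z, hz, hzv⟩
    · rw [ek_comm] at h
      exact absurd hv.fin h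
    · rw [ek_comm] at hz
      exact (hv.min z hz).trans_lt hzv
  exact lt_asymm h1 h2

theorem Dies.map {P P' : Set W} {σ : Equiv.Perm W} (h : Iso T P P' σ) {v x y : W}
    (hv : Dies T P v x y) : Dies T P' (σ v) (σ x) (σ y) := by
  have hvP : v ∈ P := Cl.sub hv.hx hv.mem
  refine ⟨(h.adj _ _).2 hv.adj, (h.mem _).2 hv.hx, (h.mem _).2 hv.hy, (h.cl hv.hx hv.hy).2 hv.mem,
    ?_, ?_, ?_⟩
  · rw [h.cl_eq hv.hx hv.hy]
    exact hv.fin.image _
  · rw [h.cl_eq hv.hx hv.hy]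
    rintro _ ⟨z, hz, rfl⟩
    exact (h.le hvP (Cl.sub hv.hx hz)).2 (hv.min z hz)
  · rw [h.cl_eq hv.hx hv.hy]
    rcases hv.oth with h1 | ⟨z, hz, hzv⟩
    · exact Or.inl (h1.image σ.injective.injOn)
    · exact Or.inr ⟨σ z, ⟨z, hz, rfl⟩, (h.lt z (Cl.sub hv.hy hz) v hvP).2 hzv⟩

/-- the edges at which `v` is the smallest vertex of its finite cluster -/
def Alive (T : SimpleGraph W) (P : Set W) (v : W) : Set (W × W) :=
  {e | T.Adj e.1 e.2 ∧ e.1 ∈ P ∧ e.2 ∈ P ∧ (Cl T P (ek e.1 e.2) v).Finite ∧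
    ∀ z ∈ Cl T P (ek e.1 e.2) v, v ≤ z}

theorem alive_bdd {P : Set W} (hsym : ∀ U : Set W, U ⊆ P → U.Infinite →
    ∃ σ : Equiv.Perm W, Iso T P P σ ∧ (∀ v ∈ P, σ v ≠ v) ∧ ∃ u ∈ U, σ u ∈ U) {v : W} (hv : v ∈ P) :
    {z | ∃ e ∈ Alive T P v, z ∈ Cl T P (ek e.1 e.2) v}.Finite := by
  by_contra hinf
  set U := {z | ∃ e ∈ Alive T P v, z ∈ Cl T P (ek e.1 e.2) v} with hU
  have hinf' : U.Infinite := hinf
  obtain ⟨σ, hσ, hfree, u, ⟨e₁, he₁, hu⟩, ⟨e, he, hw⟩⟩ := hsym U (fun z hz => by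
    obtain ⟨e, he, hz⟩ := hz
    exact Cl.sub hv hz) hinf'
  obtain ⟨a1, a2, a3, a4, a5⟩ := he₁
  obtain ⟨b1, b2, b3, b4, b5⟩ := he
  have hw' : σ u ∈ Cl T P (ek (σ e₁.1) (σ e₁.2)) (σ v) := (hσ.cl a2 a3).2 hu
  have minσ : ∀ e ∈ Alive T P v, ∀ z ∈ Cl T P (ek (σ e.1) (σ e.2)) (σ v), σ v ≤ z := by
    rintro e ⟨c1, c2, c3, c4, c5⟩ z hz
    rw [hσ.cl_eq c2 c3] at hz
    obtain ⟨z, hz, rfl⟩ := hz
    exact (hσ.le hv (Cl.sub hv hz)).2 (c5 z hz)
  apply hfree v hv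
  rcases le_total (ek e.1 e.2) (ek (σ e₁.1) (σ e₁.2)) with hk | hk
  · have h1 : v ∈ Cl T P (ek (σ e₁.1) (σ e₁.2)) (σ v) :=
      cl_trans hw' (Cl.mono subset_rfl hk _ (cl_symm hw))
    apply le_antisymm (minσ e₁ ⟨a1, a2, a3, a4, a5⟩ v h1)
    have hfin : (Cl T P (ek (σ e₁.1) (σ e₁.2)) (σ v)).Finite := by
      rw [hσ.cl_eq a2 a3]
      exact a4.image _
    obtain ⟨z, ⟨e₂, he₂, hz⟩, hz'⟩ := (hinf'.sdiff hfin).nonempty
    rw [← cl_eq h1] at hz'
    have hk2 : ek (σ e₁.1) (σ e₁.2) ≤ ek e₂.1 e₂.2 := by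
      by_contra hc
      exact hz' (Cl.mono subset_rfl (not_le.1 hc).le _ hz)
    exact he₂.2.2.2.2 _ (Cl.mono subset_rfl hk2 _ (cl_symm h1))
  · have h1 : σ v ∈ Cl T P (ek e.1 e.2) v := cl_trans hw (Cl.mono subset_rfl hk _ (cl_symm hw'))
    refine le_antisymm ?_ (b5 _ h1)
    obtain ⟨z, ⟨z₀, ⟨e₂, he₂, hz₀⟩, rfl⟩, hz'⟩ :=
      ((hinf'.image σ.injective.injOn).sdiff b4).nonempty
    have hz : σ z₀ ∈ Cl T P (ek (σ e₂.1) (σ e₂.2)) (σ v) := (hσ.cl he₂.2.1 he₂.2.2.1).2 hz₀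
    rw [← cl_eq h1] at hz'
    have hk2 : ek e.1 e.2 ≤ ek (σ e₂.1) (σ e₂.2) := by
      by_contra hc
      exact hz' (Cl.mono subset_rfl (not_le.1 hc).le _ hz)
    exact minσ e₂ he₂ _ (Cl.mono subset_rfl hk2 _ (cl_symm h1))

/-- the outgoing edge with the smallest key -/
theorem exists_out {P : Set W} (hPc : ∀ x ∈ P, ∀ y ∈ P,
    ReflTransGen (fun u w => T.Adj u w ∧ u ∈ P ∧ w ∈ P) x y)
    (hPl : ∀ x ∈ P, {w | T.Adj x w ∧ w ∈ P}.Finite) (hPi : P.Infinite) {N : Set W}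
    (hN : N.Finite) (hNP : N ⊆ P) (hne : N.Nonempty) :
    ∃ x y, x ∈ N ∧ y ∈ P ∧ y ∉ N ∧ T.Adj x y ∧
      ∀ u w, T.Adj u w → u ∈ N → w ∈ P → w ∉ N → ek x y ≤ ek u w := by
  obtain ⟨z, hz, hzN⟩ := (hPi.sdiff hN).nonempty
  obtain ⟨v, hv⟩ := hne
  have hex : ∃ x y, x ∈ N ∧ y ∈ P ∧ y ∉ N ∧ T.Adj x y := by
    by_contra hcon
    push Not at hcon
    apply hzN
    have h1 := hPc v (hNP hv) z hz
    clear hz hzN
    induction h1 with
    | refl => exact hv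
    | @tail u w _ h2 ih =>
      by_contra hw
      exact hcon u w ih h2.2.2 hw h2.1
  have hfin : {e : W × W | e.1 ∈ N ∧ e.2 ∈ P ∧ e.2 ∉ N ∧ T.Adj e.1 e.2}.Finite := by
    refine (hN.biUnion fun x hx => ((hPl x (hNP hx)).image fun w => (x, w))).subset ?_
    rintro ⟨x, y⟩ ⟨h1, h2, h3, h4⟩
    rw [Set.mem_iUnion₂]
    exact ⟨x, h1, y, ⟨h4, h2⟩, rfl⟩
  obtain ⟨x₀, y₀, h₀⟩ := hex
  obtain ⟨⟨x, y⟩, ⟨h1, h2, h3, h4⟩, hmin⟩ := Set.exists_min_image
    {e : W × W | e.1 ∈ N ∧ e.2 ∈ P ∧ e.2 ∉ N ∧ T.Adj e.1 e.2} (fun e => ek e.1 e.2) hfin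
    ⟨(x₀, y₀), h₀⟩
  exact ⟨x, y, h1, h2, h3, h4, fun u w h5 h6 h7 h8 => hmin (u, w) ⟨h6, h7, h8, h5⟩⟩

/-- **every vertex dies** -/
theorem exists_dies {P : Set W} (hPc : ∀ x ∈ P, ∀ y ∈ P,
    ReflTransGen (fun u w => T.Adj u w ∧ u ∈ P ∧ w ∈ P) x y)
    (hPl : ∀ x ∈ P, {w | T.Adj x w ∧ w ∈ P}.Finite) (hPi : P.Infinite)
    (hsym : ∀ U : Set W, U ⊆ P → U.Infinite →
      ∃ σ : Equiv.Perm W, Iso T P P σ ∧ (∀ v ∈ P, σ v ≠ v) ∧ ∃ u ∈ U, σ u ∈ U)
    {v : W} (hv : v ∈ P) : ∃ x y, Dies T P v x y := by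
  have hfin := alive_bdd hsym hv
  obtain ⟨M, hM⟩ : ∃ M, M = {z | ∃ e ∈ Alive T P v, z ∈ Cl T P (ek e.1 e.2) v} := ⟨_, rfl⟩
  rw [← hM] at hfin
  -- some edge is alive
  have hne : (Alive T P v).Nonempty := by
    obtain ⟨x, y, h1, h2, h3, h4, h5⟩ := exists_out hPc hPl hPi (Set.finite_singleton v)
      (by simpa using hv) (Set.singleton_nonempty v)
    have hx : x = v := h1
    have hsub : Cl T P (ek x y) v ⊆ {v} := Cl.closed rfl h5
    exact ⟨(x, y), h4, by rw [hx]; exact hv, h2, (Set.finite_singleton v).subset hsub,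
      fun z hz => (hsub hz).ge⟩
  -- the largest alive cluster
  have hdir : ∀ F : Set W, F.Finite → F ⊆ M → ∃ e ∈ Alive T P v, F ⊆ Cl T P (ek e.1 e.2) v := by
    intro F hF
    induction F, hF using Set.Finite.induction_on with
    | empty => intro _; obtain ⟨e, he⟩ := hne; exact ⟨e, he, Set.empty_subset _⟩
    | @insert z F _ _ ih =>
      intro hF
      obtain ⟨e, he, h1⟩ := ih ((Set.subset_insert _ _).trans hF)
      have hz := hF (Set.mem_insert _ _)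
      rw [hM] at hz
      obtain ⟨e', he', h2⟩ := hz
      rcases le_total (ek e.1 e.2) (ek e'.1 e'.2) with hk | hk
      · exact ⟨e', he', Set.insert_subset h2 (h1.trans (Cl.mono subset_rfl hk _))⟩
      · exact ⟨e, he, Set.insert_subset (Cl.mono subset_rfl hk _ h2) h1⟩
  obtain ⟨e₀, he₀, h0⟩ := hdir M hfin subset_rfl
  have hM0 : Cl T P (ek e₀.1 e₀.2) v = M := by
    refine Set.Subset.antisymm (fun z hz => ?_) h0
    rw [hM]
    exact ⟨e₀, he₀, hz⟩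
  have hMP : M ⊆ P := by
    rw [← hM0]
    exact Cl.sub hv
  have hvM : v ∈ M := by
    rw [← hM0]
    exact Cl.refl v
  have hMmin : ∀ z ∈ M, v ≤ z := fun z hz => he₀.2.2.2.2 z (h0 hz)
  obtain ⟨x, y, h1, h2, h3, h4, h5⟩ := exists_out hPc hPl hPi hfin hMP ⟨v, hvM⟩
  have hk : ek e₀.1 e₀.2 ≤ ek x y := by
    by_contra hc
    apply h3
    rw [← hM0] at h1 ⊢
    exact cl_step h1 ⟨h4, Cl.sub hv h1, h2, not_le.1 hc⟩
  have hM1 : Cl T P (ek x y) v = M :=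
    Set.Subset.antisymm (Cl.closed hvM h5) (by rw [← hM0]; exact Cl.mono subset_rfl hk _)
  have hx1 : x ∈ Cl T P (ek x y) v := by rw [hM1]; exact h1
  have hM2 : Cl T P (ek x y) x = M := by rw [cl_eq hx1, hM1]
  refine ⟨x, y, h4, hMP h1, h2, cl_symm hx1, by rw [hM2]; exact hfin, by rw [hM2]; exact hMmin, ?_⟩
  by_contra hcon
  push Not at hcon
  obtain ⟨hc1, hc2⟩ := hcon
  have hc1' : (Cl T P (ek x y) y).Finite := by simpa using hc1
  obtain ⟨x₂, y₂, g1, g2, g3, g4, g5⟩ := exists_out hPc hPl hPi (hfin.union hc1')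
    (Set.union_subset hMP (Cl.sub h2)) ⟨v, Or.inl hvM⟩
  have hne2 : ek x y ≠ ek x₂ y₂ := by
    intro he
    rcases ek_inj he with ⟨rfl, rfl⟩ | ⟨rfl, rfl⟩
    · exact g3 (Or.inr (Cl.refl _))
    · exact g3 (Or.inl h1)
  have hlt : ek x y < ek x₂ y₂ := by
    refine lt_of_le_of_ne ?_ hne2
    rcases g1 with g1 | g1
    · exact h5 x₂ y₂ g4 g1 g2 fun hc => g3 (Or.inl hc)
    · by_contra hc
      exact g3 (Or.inr (cl_step g1 ⟨g4, Cl.sub h2 g1, g2, not_le.1 hc⟩))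
  have hsub : Cl T P (ek x₂ y₂) v ⊆ M ∪ Cl T P (ek x y) y := Cl.closed (Or.inl hvM) g5
  have hal : (x₂, y₂) ∈ Alive T P v := by
    refine ⟨g4, (Set.union_subset hMP (Cl.sub h2)) g1, g2, (hfin.union hc1').subset hsub,
      fun z hz => ?_⟩
    rcases hsub hz with hz | hz
    · exact hMmin z hz
    · exact hc2 z hz
  apply h3
  rw [hM]
  exact ⟨_, hal, cl_step (Cl.mono subset_rfl hlt.le _ hx1) ⟨h4, hMP h1, h2, hlt⟩⟩

end Pool.Agent.H348.VH
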