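import Pool.Agent.H348.VH.Geom

/-!
# Counting bridges
-/

set_option autoImplicit false

namespace Pool.Agent.H348.VH

open Function Set Relation
open Pool.Agent.W5h69.CR

variable {V A B : Type*} {Γ : SimpleGraph V} {T₁ : SimpleGraph A} {T₂ : SimpleGraph B}
  {G : Type*} [Group G] [MulAction G V] [MulAction G A] [MulAction G B] {p₁ : V → A} {p₂ : V → B}

theorem IsVH.isoAdj (h : IsVH Γ T₁ T₂ G p₁ p₂) (γ : G) (x y : B) :
    T₂.Adj (γ • x) (γ • y) ↔ T₂.Adj x y := by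
  refine ⟨fun h1 => ?_, h.adj₂ γ x y⟩
  have := h.adj₂ γ⁻¹ _ _ h1
  rwa [inv_smul_smul, inv_smul_smul] at this

theorem IsVH.squares_ge {K : Set V} (h : IsVH Γ T₁ T₂ G p₁ p₂) (hG : Geo Γ G K) {a c : A}
    (hac : T₁.Adj a c) {v v' : V} (v1 : p₁ v = a) (v1' : p₁ v' = c) (v2 : p₂ v = p₂ v') :
    {y | T₂.Adj (p₂ v) y ∧ y ∈ Fib p₁ p₂ a ∩ Fib p₁ p₂ c}.ncard ≤ squares Γ v v' := by
  have hfin : {w | w ≠ v' ∧ Γ.Adj v w ∧ ∃ w', w' ≠ v ∧ Γ.Adj w w' ∧ Γ.Adj v' w'}.Finite :=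
    (hG.loc v).subset fun w hw => hw.2.1
  have hsub : {y | T₂.Adj (p₂ v) y ∧ y ∈ Fib p₁ p₂ a ∩ Fib p₁ p₂ c} ⊆
      p₂ '' {w | w ≠ v' ∧ Γ.Adj v w ∧ ∃ w', w' ≠ v ∧ Γ.Adj w w' ∧ Γ.Adj v' w'} := by
    rintro y ⟨h1, ⟨w, w1, w2⟩, ⟨w', w1', w2'⟩⟩
    refine ⟨w, ⟨?_, ?_, w', ?_, ?_, ?_⟩, w2⟩
    · rintro rfl
      rw [w1] at v1'
      rw [v1'] at hac
      exact hac.ne rfl
    · exact h.adj_of₂ (by rw [v1, w1]) (by rw [w2]; exact h1)
    · rintro rfl
      rw [w1'] at v1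
      rw [v1] at hac
      exact hac.ne rfl
    · exact h.adj_of₁ (by rw [w1, w1']; exact hac) (by rw [w2, w2'])
    · exact h.adj_of₂ (by rw [v1', w1']) (by rw [w2', ← v2]; exact h1)
  exact (Set.ncard_le_ncard hsub (hfin.image _)).trans (Set.ncard_image_le hfin)

/-- **a group which is not cyclic up to powers and fixes `a` and `m` of its neighbours forces
excess at least `2 m` at `a`** -/
theorem IsVH.excess_ge {K : Set V} (h : IsVH Γ T₁ T₂ G p₁ p₂) (hG : Geo Γ G K)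
    (hfree : ∀ (g : G) (v : V), g • v = v → g = 1) (htf : ∀ g : G, g * g = 1 → g = 1) {a : A}
    {m : ℕ} (c : Fin m → A) (hcinj : Injective c) (hc : ∀ i, T₁.Adj a (c i)) {D : Subgroup G}
    (hDa : ∀ d ∈ D, d • a = a) (hDc : ∀ d ∈ D, ∀ i, d • c i = c i) {g : G} (hg : g ∈ D) {ℓ : ℕ}
    (hℓ : 0 < ℓ) {α : ℤ → B} (hgeo : ∀ m n : ℤ, (T₂.dist (α m) (α n) : ℤ) = |m - n|)
    (hper : ∀ n, g • α n = α (n + ℓ)) (hmem : ∀ n, α n ∈ Fib p₁ p₂ a)
    (hmem' : ∀ n i, α n ∈ Fib p₁ p₂ (c i))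
    (hD : ¬ ∃ z : G, ∀ d ∈ D, ∃ n : ℕ, 0 < n ∧ ∃ s : ℤ, d ^ n = z ^ s) :
    ∃ s : Finset (V × V), (∀ e ∈ s, Γ.Adj e.1 e.2 ∧ p₁ e.1 = a ∧ p₁ e.2 ≠ a) ∧
      (∀ e ∈ s, ∀ e' ∈ s, ∀ g : G, g • e.1 = e'.1 → g • e.2 = e'.2 → e = e') ∧
      2 * m ≤ ∑ e ∈ s, (squares Γ e.1 e.2 - 2) := by
  classical
  have hcon := hG.med.1
  have fix : ∀ (γ : G) (x : B), γ • a = a → x ∈ Fib p₁ p₂ a → γ • x = x → γ = 1 := by
    rintro γ x ha ⟨v, v1, v2⟩ hx
    refine hfree γ v (h.inj hcon ?_ ?_)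
    · rw [h.eq₁, v1, ha]
    · rw [h.eq₂, v2, hx]
  have noinv : ∀ (γ : G) (x y : B), γ • a = a → x ∈ Fib p₁ p₂ a → T₂.Adj x y → γ • x = y →
      γ • y = x → False := by
    intro γ x y ha hx hxy h1 h2
    have h3 : γ * γ = 1 := fix (γ * γ) x (by rw [mul_smul, ha, ha]) hx (by rw [mul_smul, h1, h2])
    have h4 := htf γ h3
    rw [h4, one_smul] at h1
    exact hxy.ne h1
  -- the order
  obtain ⟨o, ho⟩ := exists_order h.tree₂ h.adj₂ (MulAction.stabilizer G a)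
    (Q := Fib p₁ p₂ a) (fun γ hγ x hx => by
      have h1 : γ • a = a := hγ
      have h2 := (h.smul_fib γ (a := a) (x := x)).2 hx
      rwa [h1] at h2) (h.cvx hcon a) ⟨α 0, hmem 0⟩ (h.countable hG a)
    (fun γ hγ x hx => fix γ x hγ hx)
    (fun γ hγ x hx y _ hxy h1 => noinv γ x y hγ hx hxy h1.1 h1.2)
  let _ : LinearOrder B := o
  have iso : ∀ (γ : G) (c' : A), γ • a = a →
      Iso T₂ (Fib p₁ p₂ a ∩ Fib p₁ p₂ c') (Fib p₁ p₂ a ∩ Fib p₁ p₂ (γ • c'))
        (MulAction.toPerm γ) := by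
    intro γ c' ha
    refine ⟨fun x y => h.isoAdj γ x y, fun x => ?_, fun x hx y hy => ho γ ha x hx.1 y hy.1⟩
    have h1 := h.smul_fib γ (a := a) (x := x)
    have h2 := h.smul_fib γ (a := c') (x := x)
    rw [ha] at h1
    rw [MulAction.toPerm_apply]
    exact and_congr h1 h2
  -- the bridge
  obtain ⟨x₀, y₀, hb⟩ : ∃ x y, Bridge T₂ (Fib p₁ p₂ a ∩ ⋂ i, Fib p₁ p₂ (c i)) x y := by
    by_contra hno
    apply hD
    refine ⟨g, fun d hd => ?_⟩
    have hcv : Cvx T₂ (Fib p₁ p₂ a ∩ ⋂ i, Fib p₁ p₂ (c i)) := by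
      intro x hx y hy z hz
      refine ⟨h.cvx hcon a x hx.1 y hy.1 z hz, ?_⟩
      rw [Set.mem_iInter]
      intro i
      exact h.cvx hcon (c i) x (Set.mem_iInter.1 hx.2 i) y (Set.mem_iInter.1 hy.2 i) z hz
    obtain ⟨s, hs⟩ := dich h.tree₂ hcv (D := D) (fun d hd => by
        refine ⟨fun x y => h.isoAdj d x y, fun x => ?_, fun x hx y hy => ho d (hDa d hd) x hx.1 y
          hy.1⟩
        rw [MulAction.toPerm_apply]
        have h1 := h.smul_fib d (a := a) (x := x)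
        rw [hDa d hd] at h1
        refine and_congr h1 ?_
        rw [Set.mem_iInter, Set.mem_iInter]
        refine forall_congr' fun i => ?_
        have h2 := h.smul_fib d (a := c i) (x := x)
        rwa [hDc d hd i] at h2)
      (fun d hd x hx hdx => fix d x (hDa d hd) hx.1 hdx) hg (ℓ := ℓ) (a := α)
      ⟨hℓ, fun n => ⟨hmem n, Set.mem_iInter.2 fun i => hmem' n i⟩, hgeo, hper⟩ hno hd
    exact ⟨ℓ, hℓ, s, hs⟩
  have hb' : ∀ i, Bridge T₂ (Fib p₁ p₂ a ∩ Fib p₁ p₂ (c i)) x₀ y₀ := fun i =>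
    hb.mono (Set.inter_subset_inter_right _ (Set.iInter_subset _ i))
  -- the horizontal edges modulo the group
  let E : Type _ := {x : B × A // (∃ γ : G, γ • a = a ∧ ∃ i, γ • c i = x.2) ∧
    x.1 ∈ Fib p₁ p₂ a ∩ Fib p₁ p₂ x.2}
  let S : Setoid E :=
    { r := fun x y => ∃ γ : G, γ • a = a ∧ γ • x.1.1 = y.1.1 ∧ γ • x.1.2 = y.1.2
      iseqv := by
        refine ⟨fun x => ⟨1, one_smul _ _, one_smul _ _, one_smul _ _⟩, ?_, ?_⟩
        · rintro x y ⟨γ, h1, h2, h3⟩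
          exact ⟨γ⁻¹, by rw [inv_smul_eq_iff, h1], by rw [inv_smul_eq_iff, h2],
            by rw [inv_smul_eq_iff, h3]⟩
        · rintro x y z ⟨γ, h1, h2, h3⟩ ⟨δ, g1, g2, g3⟩
          exact ⟨δ * γ, by rw [mul_smul, h1, g1], by rw [mul_smul, h2, g2],
            by rw [mul_smul, h3, g3]⟩ }
  have hadjE : ∀ x : E, T₁.Adj a x.1.2 := by
    rintro ⟨⟨x, c'⟩, ⟨γ, h1, i, h2⟩, h3⟩
    have := h.adj₁ γ _ _ (hc i)
    rw [h1, h2] at this
    exact this
  have hvv : ∀ x : E, ∃ v v' : V, p₁ v = a ∧ p₂ v = x.1.1 ∧ p₁ v' = x.1.2 ∧ p₂ v' = x.1.1 := by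
    rintro ⟨⟨x, c'⟩, h1, ⟨v, v1, v2⟩, ⟨v', v1', v2'⟩⟩
    exact ⟨v, v', v1, v2, v1', v2'⟩
  choose v v' v1 v2 v1' v2' using hvv
  have hadjv : ∀ x : E, Γ.Adj (v x) (v' x) := fun x =>
    h.adj_of₁ (by rw [v1, v1']; exact hadjE x) (by rw [v2, v2'])
  have hfinQ : Finite (Quotient S) := by
    have hK2 : {e : V × V | e.1 ∈ K ∧ Γ.Adj e.1 e.2}.Finite := by
      refine (hG.fin.biUnion fun k _ => (hG.loc k).image fun w => (k, w)).subset ?_
      rintro ⟨k, w⟩ ⟨h1, h2⟩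
      rw [Set.mem_iUnion₂]
      exact ⟨k, h1, w, h2, rfl⟩
    have := hK2.to_subtype
    choose γ hγ using fun x : E => hG.cov (v x)
    refine Finite.of_injective (β := {e : V × V | e.1 ∈ K ∧ Γ.Adj e.1 e.2})
      (fun q => ⟨(γ q.out • v q.out, γ q.out • v' q.out), hγ _, hG.adj _ _ _ (hadjv _)⟩) ?_
    intro q q' hqq
    simp only [Subtype.mk.injEq, Prod.mk.injEq] at hqq
    obtain ⟨e1, e2⟩ := hqq
    have f1 : ((γ q'.out)⁻¹ * γ q.out) • v q.out = v q'.out := by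
      rw [mul_smul, e1, inv_smul_smul]
    have f2 : ((γ q'.out)⁻¹ * γ q.out) • v' q.out = v' q'.out := by
      rw [mul_smul, e2, inv_smul_smul]
    rw [← Quotient.out_eq q, ← Quotient.out_eq q']
    refine Quotient.sound ⟨(γ q'.out)⁻¹ * γ q.out, ?_, ?_, ?_⟩
    · have := h.eq₁ ((γ q'.out)⁻¹ * γ q.out) (v q.out)
      rw [f1, v1, v1] at this
      exact this.symm
    · have := h.eq₂ ((γ q'.out)⁻¹ * γ q.out) (v q.out)
      rw [f1, v2, v2] at this
      exact this.symm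
    · have := h.eq₁ ((γ q'.out)⁻¹ * γ q.out) (v' q.out)
      rw [f2, v1', v1'] at this
      exact this.symm
  let _ : Fintype (Quotient S) := Fintype.ofFinite _
  -- the squares at the horizontal edges
  let N : E → Set B := fun x => {y | T₂.Adj x.1.1 y ∧ y ∈ Fib p₁ p₂ a ∩ Fib p₁ p₂ x.1.2}
  have hNfin : ∀ x : E, (N x).Finite := fun x => (h.nb_finite hG x.2.2.1).subset
    fun y hy => ⟨hy.1, hy.2.1⟩
  let _ : ∀ x : E, Fintype (N x) := fun x => (hNfin x).fintype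
  -- flags
  have hflag : ∀ (x y : B) (c' : A), (∃ γ : G, γ • a = a ∧ ∃ i, γ • c i = c') → T₂.Adj x y →
      x ∈ Fib p₁ p₂ a ∩ Fib p₁ p₂ c' → y ∈ Fib p₁ p₂ a ∩ Fib p₁ p₂ c' →
      ∃ (t : Σ q : Quotient S, N q.out) (γ : G), γ • a = a ∧ γ • x = t.1.out.1.1 ∧
        γ • y = t.2.1 ∧ γ • c' = t.1.out.1.2 := by
    intro x y c' hc' hxy hx hy
    have h1 : S.r (⟨(x, c'), hc', hx⟩ : E) (Quotient.mk S ⟨(x, c'), hc', hx⟩).out :=
      S.symm (Quotient.mk_out (s := S) (⟨(x, c'), hc', hx⟩ : E))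
    obtain ⟨γ, g1, g2, g3⟩ := h1
    refine ⟨⟨Quotient.mk S ⟨(x, c'), hc', hx⟩, ⟨γ • y, ?_, ?_⟩⟩, γ, g1, g2, rfl, g3⟩
    · rw [← g2]
      exact h.adj₂ γ _ _ hxy
    · rw [← g3]
      exact ((iso γ c' g1).mem y).2 hy
  -- the edges where the vertices die
  have hdies : ∀ x : E, ∃ x₁ y₁, Dies T₂ (Fib p₁ p₂ a ∩ Fib p₁ p₂ x.1.2) x.1.1 x₁ y₁ := by
    intro x
    have hcv : Cvx T₂ (Fib p₁ p₂ a ∩ Fib p₁ p₂ x.1.2) := fun x' hx y hy z hz =>
      ⟨h.cvx hcon a x' hx.1 y hy.1 z hz, h.cvx hcon _ x' hx.2 y hy.2 z hz⟩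
    refine exists_dies (fun x' hx y hy => hcv.connected h.tree₂ hx hy)
      (fun x' hx => (h.nb_finite hG hx.1).subset fun y hy => ⟨hy.1, hy.2.1⟩) ?_ ?_ x.2.2
    · -- the strip is infinite
      obtain ⟨γ, h1, i, h2⟩ := x.2.1
      refine Set.infinite_of_injective_forall_mem (f := fun n : ℕ => γ • α n) ?_ fun n => ?_
      · intro n n' hn
        have h3 : α n = α n' := smul_left_cancel γ hn
        have h4 := hgeo n n'
        rw [h3, SimpleGraph.dist_self] at h4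
        have h5 : (n : ℤ) - n' = 0 := abs_eq_zero.1 (by simpa using h4.symm)
        omega
      · have h3 := ((iso γ (c i) h1).mem (α n)).2 ⟨hmem n, hmem' n i⟩
        rw [h2] at h3
        exact h3
    · intro U hU hi
      obtain ⟨γ, g1, g2, u, hu, hu', hne⟩ := h.pig hG (hadjE x) hU hi
      have := iso γ x.1.2 g1
      rw [g2] at this
      refine ⟨MulAction.toPerm γ, this, fun w hw hw' => ?_, u, hu, hu'⟩
      have h3 := fix γ w g1 hw.1 hw'
      rw [h3, one_smul] at hne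
      exact hne rfl
  choose x₁ y₁ hd using hdies
  -- the flags attached to the horizontal edges and to the bridges
  let raw : (Quotient S × Bool) ⊕ (Fin m × Bool) → B × B × A := fun t => match t with
    | Sum.inl (q, b) => if b then (x₁ q.out, y₁ q.out, q.out.1.2) else
        (y₁ q.out, x₁ q.out, q.out.1.2)
    | Sum.inr (i, b) => if b then (x₀, y₀, c i) else (y₀, x₀, c i)
  have hraw : ∀ t, ∃ (f : Σ q : Quotient S, N q.out) (γ : G), γ • a = a ∧
      γ • (raw t).1 = f.1.out.1.1 ∧ γ • (raw t).2.1 = f.2.1 ∧ γ • (raw t).2.2 = f.1.out.1.2 := by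
    rintro (⟨q, _ | _⟩ | ⟨i, _ | _⟩)
    · exact hflag _ _ _ q.out.2.1 (hd q.out).adj.symm (hd q.out).hy (hd q.out).hx
    · exact hflag _ _ _ q.out.2.1 (hd q.out).adj (hd q.out).hx (hd q.out).hy
    · exact hflag _ _ _ ⟨1, one_smul _ _, i, one_smul _ _⟩ (hb' i).1.symm (hb' i).2.2.1 (hb' i).2.1
    · exact hflag _ _ _ ⟨1, one_smul _ _, i, one_smul _ _⟩ (hb' i).1 (hb' i).2.1 (hb' i).2.2.1
  choose F δ hδ1 hδ2 hδ3 hδ4 using hraw
  have hequiv : ∀ t t', F t = F t' → ∃ γ : G, γ • a = a ∧ γ • (raw t).1 = (raw t').1 ∧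
      γ • (raw t).2.1 = (raw t').2.1 ∧ γ • (raw t).2.2 = (raw t').2.2 := by
    intro t t' he
    refine ⟨(δ t')⁻¹ * δ t, ?_, ?_, ?_, ?_⟩
    · rw [mul_smul, hδ1, inv_smul_eq_iff, hδ1]
    · rw [mul_smul, hδ2, inv_smul_eq_iff, hδ2, he]
    · rw [mul_smul, hδ3, inv_smul_eq_iff, hδ3, he]
    · rw [mul_smul, hδ4, inv_smul_eq_iff, hδ4, he]
  have hmapd : ∀ (γ : G) (x : E) (c'' : A), γ • a = a → γ • x.1.2 = c'' →
      Dies T₂ (Fib p₁ p₂ a ∩ Fib p₁ p₂ c'') (γ • x.1.1) (γ • x₁ x) (γ • y₁ x) := by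
    rintro γ x c'' g1 rfl
    exact (hd x).map (iso γ _ g1)
  have hout : ∀ (γ : G) (q q' : Quotient S), γ • a = a → γ • q.out.1.1 = q'.out.1.1 →
      γ • q.out.1.2 = q'.out.1.2 → q = q' := by
    intro γ q q' g1 g2 g3
    rw [← Quotient.out_eq q, ← Quotient.out_eq q']
    exact Quotient.sound ⟨γ, g1, g2, g3⟩
  have hinj : Injective F := by
    intro t t' he
    obtain ⟨γ, g1, g2, g3, g4⟩ := hequiv t t' he
    rcases t with ⟨q, b⟩ | ⟨i, b⟩ <;> rcases t' with ⟨q', b'⟩ | ⟨i', b'⟩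
    · have hq := hmapd γ q.out q'.out.1.2 g1 (by cases b <;> cases b' <;> exact g4)
      cases b <;> cases b'
      · have e1 : γ • y₁ q.out = y₁ q'.out := g2
        have e2 : γ • x₁ q.out = x₁ q'.out := g3
        rw [e1, e2] at hq
        rw [hout γ q q' g1 (hq.uniq (hd q'.out)) g4]
      · have e1 : γ • y₁ q.out = x₁ q'.out := g2
        have e2 : γ • x₁ q.out = y₁ q'.out := g3
        rw [e1, e2] at hq
        exact (hq.not_rev (hd q'.out)).elim
      · have e1 : γ • x₁ q.out = y₁ q'.out := g2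
        have e2 : γ • y₁ q.out = x₁ q'.out := g3
        rw [e1, e2] at hq
        exact (hq.not_rev (hd q'.out)).elim
      · have e1 : γ • x₁ q.out = x₁ q'.out := g2
        have e2 : γ • y₁ q.out = y₁ q'.out := g3
        rw [e1, e2] at hq
        rw [hout γ q q' g1 (hq.uniq (hd q'.out)) g4]
    · exfalso
      have hq := hmapd γ q.out (c i') g1 (by cases b <;> cases b' <;> exact g4)
      cases b <;> cases b'
      · have e1 : γ • y₁ q.out = y₀ := g2
        have e2 : γ • x₁ q.out = x₀ := g3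
        rw [e1, e2] at hq
        exact (hb' i').not_dies hq
      · have e1 : γ • y₁ q.out = x₀ := g2
        have e2 : γ • x₁ q.out = y₀ := g3
        rw [e1, e2] at hq
        exact (hb' i').symm.not_dies hq
      · have e1 : γ • x₁ q.out = y₀ := g2
        have e2 : γ • y₁ q.out = x₀ := g3
        rw [e1, e2] at hq
        exact (hb' i').symm.not_dies hq
      · have e1 : γ • x₁ q.out = x₀ := g2
        have e2 : γ • y₁ q.out = y₀ := g3
        rw [e1, e2] at hq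
        exact (hb' i').not_dies hq
    · exfalso
      have hbm := (hb' i).map (iso γ (c i) g1)
      have e3 : γ • c i = q'.out.1.2 := by cases b <;> cases b' <;> exact g4
      rw [e3] at hbm
      simp only [MulAction.toPerm_apply] at hbm
      cases b <;> cases b'
      · have e1 : γ • y₀ = y₁ q'.out := g2
        have e2 : γ • x₀ = x₁ q'.out := g3
        rw [e1, e2] at hbm
        exact hbm.not_dies (hd q'.out)
      · have e1 : γ • y₀ = x₁ q'.out := g2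
        have e2 : γ • x₀ = y₁ q'.out := g3
        rw [e1, e2] at hbm
        exact hbm.symm.not_dies (hd q'.out)
      · have e1 : γ • x₀ = y₁ q'.out := g2
        have e2 : γ • y₀ = x₁ q'.out := g3
        rw [e1, e2] at hbm
        exact hbm.symm.not_dies (hd q'.out)
      · have e1 : γ • x₀ = x₁ q'.out := g2
        have e2 : γ • y₀ = y₁ q'.out := g3
        rw [e1, e2] at hbm
        exact hbm.not_dies (hd q'.out)
    · have m1 : x₀ ∈ Fib p₁ p₂ a := hb.2.1.1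
      have m2 : y₀ ∈ Fib p₁ p₂ a := hb.2.2.1.1
      cases b <;> cases b'
      · have e1 := fix γ y₀ g1 m2 g2
        have e4 : γ • c i = c i' := g4
        rw [e1, one_smul] at e4
        rw [hcinj e4]
      · exact (noinv γ y₀ x₀ g1 m2 hb.1.symm g2 g3).elim
      · exact (noinv γ x₀ y₀ g1 m1 hb.1 g2 g3).elim
      · have e1 := fix γ x₀ g1 m1 g2
        have e4 : γ • c i = c i' := g4
        rw [e1, one_smul] at e4
        rw [hcinj e4]
  have hcard := Fintype.card_le_of_injective F hinj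
  rw [Fintype.card_sum, Fintype.card_prod, Fintype.card_prod, Fintype.card_sigma,
    Fintype.card_bool, Fintype.card_fin] at hcard
  -- the finite set of horizontal edges
  have einj : Injective (fun q : Quotient S => (v q.out, v' q.out)) := by
    intro q q' he
    simp only [Prod.mk.injEq] at he
    refine hout 1 q q' (one_smul _ _) ?_ ?_
    · rw [one_smul, ← v2, ← v2, he.1]
    · rw [one_smul, ← v1', ← v1', he.2]
  refine ⟨Finset.univ.image fun q : Quotient S => (v q.out, v' q.out), ?_, ?_, ?_⟩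
  · intro e he
    rw [Finset.mem_image] at he
    obtain ⟨q, -, rfl⟩ := he
    refine ⟨hadjv _, v1 _, ?_⟩
    simp only
    rw [v1']
    exact (hadjE q.out).ne'
  · intro e he e' he' γ g1 g2
    rw [Finset.mem_image] at he he'
    obtain ⟨q, -, rfl⟩ := he
    obtain ⟨q', -, rfl⟩ := he'
    simp only at g1 g2
    have : q = q' := by
      refine hout γ q q' ?_ ?_ ?_
      · have := h.eq₁ γ (v q.out)
        rw [g1, v1, v1] at this
        exact this.symm
      · have := h.eq₂ γ (v q.out)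
        rw [g1, v2, v2] at this
        exact this.symm
      · have := h.eq₁ γ (v' q.out)
        rw [g2, v1', v1'] at this
        exact this.symm
    rw [this]
  · rw [Finset.sum_image fun q _ q' _ he => einj he]
    have h1 : ∀ q : Quotient S, Fintype.card (N q.out) ≤ (squares Γ (v q.out) (v' q.out) - 2) + 2 := by
      intro q
      have h2 := h.squares_ge hG (hadjE q.out) (v1 q.out) (v1' q.out) (by rw [v2, v2'])
      rw [v2] at h2
      have h3 : Fintype.card (N q.out) = (N q.out).ncard := by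
        rw [← Nat.card_coe_set_eq, Nat.card_eq_fintype_card]
      rw [h3]
      exact h2.trans (by omega)
    have h2 := Finset.sum_le_sum fun (q : Quotient S) (_ : q ∈ Finset.univ) => h1 q
    rw [Finset.sum_add_distrib, Finset.sum_const, Finset.card_univ, smul_eq_mul] at h2
    show 2 * m ≤ ∑ q : Quotient S, (squares Γ (v q.out) (v' q.out) - 2)
    omega

end Pool.Agent.H348.VH
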