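import Pool.Agent.H348.VH.Bridge

/-!
# A free group of automorphisms without bridges is cyclic up to powers
-/

set_option autoImplicit false

namespace Pool.Agent.H348.VH

open Function Set Relation

variable {W : Type*} {T : SimpleGraph W}

theorem perm_dist (hT : T.IsTree) {σ : Equiv.Perm W} (h : ∀ x y, T.Adj (σ x) (σ y) ↔ T.Adj x y)
    (x y : W) : T.dist (σ x) (σ y) = T.dist x y := by
  have key : ∀ (σ : Equiv.Perm W), (∀ x y, T.Adj (σ x) (σ y) ↔ T.Adj x y) → ∀ x y : W,
      T.dist (σ x) (σ y) ≤ T.dist x y := by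
    intro σ h x y
    obtain ⟨p, hp⟩ := hT.connected.exists_walk_length_eq_dist x y
    let φ : T →g T := ⟨fun v => σ v, fun {a b} hab => (h a b).2 hab⟩
    have := SimpleGraph.dist_le (p.map φ)
    rwa [SimpleGraph.Walk.length_map, hp] at this
  refine le_antisymm (key σ h x y) ?_
  have := key σ.symm (fun x y => by
    rw [← h, σ.apply_symm_apply, σ.apply_symm_apply]) (σ x) (σ y)
  rwa [σ.symm_apply_apply, σ.symm_apply_apply] at this

variable [LinearOrder W] {P : Set W} {G : Type*} [Group G] [MulAction G W]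

theorem dich_pos (hT : T.IsTree) (hP : Cvx T P) {D : Subgroup G}
    (hD : ∀ d ∈ D, Iso T P P (MulAction.toPerm d)) (hfree : ∀ d ∈ D, ∀ x ∈ P, d • x = x → d = 1)
    {g : G} (hg : g ∈ D) {ℓ : ℕ} {a : ℤ → W} (ha : Axis T P (MulAction.toPerm g) ℓ a)
    (hno : ¬ ∃ x y, Bridge T P x y) {m : ℤ}
    (hm : ∀ n, m < n → ek (a n) (a (n + 1)) < ek (a m) (a (m + 1))) {d : G} (hd : d ∈ D) :
    ∃ s : ℤ, d ^ ℓ = g ^ s := by
  have hpos := ha.pos
  -- the rays
  have hr : Ray T (fun n : ℕ => a (m + n)) := fun i j => by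
    rw [ha.geo]
    congr 1
    ring
  have hr' : Ray T (fun n : ℕ => d • a (m + n)) := fun i j => by
    have h1 : T.dist (d • a (m + i)) (d • a (m + j)) = T.dist (a (m + i)) (a (m + j)) :=
      perm_dist hT (hD d hd).adj _ _
    rw [h1, ha.geo]
    congr 1
    ring
  -- the clusters
  have hinf : ∀ k : ℕ, (Cl T P (ek (a (m + k * ℓ)) (a (m + k * ℓ + 1))) (a (m + k * ℓ + 1))).Infinite := by
    intro k
    have hk : ∀ n, m + k * ℓ < n →
        ek (a n) (a (n + 1)) < ek (a (m + k * ℓ)) (a (m + k * ℓ + 1)) := by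
      intro n hn
      have := (ha.key_lt_nat (hD g hg) k (n - k * ℓ) m).2 (hm _ (by linarith))
      rwa [sub_add_cancel] at this
    have h1 : ∀ n : ℕ, a (m + k * ℓ + 1 + n) ∈
        Cl T P (ek (a (m + k * ℓ)) (a (m + k * ℓ + 1))) (a (m + k * ℓ + 1)) := by
      intro n
      induction n with
      | zero => simpa using Cl.refl _
      | succ n ih =>
        refine cl_step ih ⟨?_, ha.mem _, ha.mem _, ?_⟩
        · push_cast
          rw [← add_assoc]
          exact ha.adj _
        · push_cast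
          rw [← add_assoc]
          exact hk _ (by omega)
    exact Set.infinite_of_injective_forall_mem (fun i j hij => by
      have := ha.inj hij
      omega) h1
  have hinf' : ∀ k : ℕ, (Cl T P (ek (d • a (m + k * ℓ)) (d • a (m + k * ℓ + 1)))
      (d • a (m + k * ℓ + 1))).Infinite := by
    intro k
    have := (hD d hd).cl_eq (ha.mem (m + k * ℓ)) (ha.mem (m + k * ℓ + 1)) (a (m + k * ℓ + 1))
    simp only [MulAction.toPerm_apply] at this
    rw [this]
    exact (hinf k).image (MulAction.toPerm d).injective.injOn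
  have hsd : ∀ n : ℕ, ∃ M : ℕ, Sd T (a (m + n)) (a (m + ((n + 1 : ℕ) : ℤ))) (d • a (m + M)) := by
    intro n
    obtain ⟨N, hN⟩ := hr'.bdd hT (a (m + ((n * ℓ + 1 : ℕ) : ℤ)))
    by_contra hcon
    push Not at hcon
    have e1 : ∀ k : ℕ, (m : ℤ) + ((k * ℓ : ℕ) : ℤ) = m + k * ℓ := fun k => by push_cast; ring
    have e2 : ∀ k : ℕ, (m : ℤ) + ((k * ℓ + 1 : ℕ) : ℤ) = m + k * ℓ + 1 := fun k => by
      push_cast; ring
    have hNl : N ≤ N * ℓ := Nat.le_mul_of_pos_right _ hpos
    have h1 := hN (N * ℓ) hNl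
    have h2 : ¬ Sd T (a (m + n * ℓ)) (a (m + n * ℓ + 1)) (d • a (m + N * ℓ + 1)) := by
      intro hc
      apply hcon (N * ℓ + 1)
      rw [e2]
      refine hr.anti hT (Nat.le_mul_of_pos_right n hpos) ?_
      simp only [e1, e2]
      exact hc
    simp only [e1, e2] at h1
    exact hno (bridge_of hT hP (ha.adj _) (((hD d hd).adj _ _).2 (ha.adj (m + N * ℓ))) (ha.mem _)
      (((hD d hd).mem _).2 (ha.mem _)) (hinf n) (hinf' N) h2 h1)
  obtain ⟨n₀, m₀, hmer⟩ := Ray.merge hT hr hr' hsd
  -- `d` is eventually a translation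
  obtain ⟨s, hs⟩ : ∃ s : ℤ, s = n₀ - m₀ := ⟨_, rfl⟩
  have htr : ∀ n : ℤ, m + m₀ ≤ n → d • a n = a (n + s) := by
    intro n hn
    obtain ⟨t, ht⟩ := Int.eq_ofNat_of_zero_le (sub_nonneg.2 hn)
    have := hmer t
    push_cast at this
    rw [show n = m + (m₀ + t) by linarith, this]
    congr 1
    rw [hs]
    ring
  have hpow : ∀ j : ℕ, ∀ n : ℤ, m + m₀ + j * |s| ≤ n → d ^ j • a n = a (n + j * s) := by
    intro j
    induction j with
    | zero => intro n _; simp
    | succ j ih =>
      intro n hn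
      push_cast at hn
      have h1 : 0 ≤ |s| := abs_nonneg s
      have h2 : -|s| ≤ s := neg_abs_le s
      rw [pow_succ', mul_smul, ih n (by nlinarith), htr _ (by nlinarith)]
      congr 1
      push_cast
      ring
  have hgz : ∀ (t n : ℤ), g ^ t • a n = a (n + t * ℓ) := by
    have hgn : ∀ (k : ℕ) (n : ℤ), g ^ k • a n = a (n + k * ℓ) := by
      intro k
      induction k with
      | zero => intro n; simp
      | succ k ih =>
        intro n
        have := ha.per (n + k * ℓ)
        rw [MulAction.toPerm_apply] at this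
        rw [pow_succ', mul_smul, ih, this]
        congr 1
        push_cast
        ring
    intro t n
    rcases le_total 0 t with ht | ht
    · obtain ⟨k, rfl⟩ := Int.eq_ofNat_of_zero_le ht
      rw [zpow_natCast]
      exact hgn k n
    · obtain ⟨k, hk⟩ := Int.eq_ofNat_of_zero_le (neg_nonneg.2 ht)
      obtain rfl : t = -k := by omega
      rw [zpow_neg, zpow_natCast, inv_smul_eq_iff, hgn]
      congr 1
      ring
  refine ⟨s, ?_⟩
  have h1 : (g ^ s)⁻¹ * d ^ ℓ = 1 := by
    refine hfree _ (D.mul_mem (D.inv_mem (D.zpow_mem hg s)) (D.pow_mem hd ℓ))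
      (a (m + m₀ + ℓ * |s|)) (ha.mem _) ?_
    rw [mul_smul, hpow ℓ _ le_rfl, inv_smul_eq_iff, hgz]
    congr 1
    ring
  rw [inv_mul_eq_one] at h1
  exact h1.symm

/-- **bridges exist unless the group is cyclic up to powers** -/
theorem dich (hT : T.IsTree) (hP : Cvx T P) {D : Subgroup G}
    (hD : ∀ d ∈ D, Iso T P P (MulAction.toPerm d)) (hfree : ∀ d ∈ D, ∀ x ∈ P, d • x = x → d = 1)
    {g : G} (hg : g ∈ D) {ℓ : ℕ} {a : ℤ → W} (ha : Axis T P (MulAction.toPerm g) ℓ a)
    (hno : ¬ ∃ x y, Bridge T P x y) {d : G} (hd : d ∈ D) : ∃ s : ℤ, d ^ ℓ = g ^ s := by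
  obtain ⟨m, hm | hm⟩ := ha.good (hD g hg)
  · exact dich_pos hT hP hD hfree hg ha hno hm hd
  · have ha' : Axis T P (MulAction.toPerm g⁻¹) ℓ (fun n => a (-n)) := by
      have := ha.rev
      refine ⟨this.pos, this.mem, this.geo, fun n => ?_⟩
      have h1 := this.per n
      rw [Equiv.Perm.inv_eq_iff_eq] at h1
      rw [MulAction.toPerm_apply, inv_smul_eq_iff]
      exact h1
    obtain ⟨s, hs⟩ := dich_pos hT hP hD hfree (D.inv_mem hg) ha' hno (m := -m - 1)
      (fun n hn => by
        simp only [neg_add_rev, neg_sub, sub_neg_eq_add]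
        have h1 := hm (-n - 1) (by linarith)
        rw [sub_add_cancel] at h1
        rw [ek_comm, show (-1 : ℤ) + -n = -n - 1 by ring]
        refine h1.trans_le (le_of_eq ?_)
        rw [ek_comm]
        congr 2
        · ring
        · ring) hd
    exact ⟨-s, by rw [hs, inv_zpow, zpow_neg]⟩

end Pool.Agent.H348.VH
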