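import Pool.Agent.H348.VH.Count
import Pool.Agent.H348.GB.Uniq

/-!
# Flats in VH complexes
-/

set_option autoImplicit false

namespace Pool.Agent.H348.VH

open Function Set Relation
open Pool.Agent.W5h69.CR
open Pool.Agent.H348.GB

variable {V A B : Type*} {Γ : SimpleGraph V} {T₁ : SimpleGraph A} {T₂ : SimpleGraph B}
  {G : Type*} [Group G] [MulAction G V] [MulAction G A] [MulAction G B] {p₁ : V → A} {p₂ : V → B}

namespace IsVH

theorem swap (h : IsVH Γ T₁ T₂ G p₁ p₂) : IsVH Γ T₂ T₁ G p₂ p₁ :=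
  ⟨h.tree₂, h.tree₁, h.adj₂, h.adj₁, h.eq₂, h.eq₁, fun v w => by rw [h.dist, add_comm]⟩

theorem no11 (h : IsVH Γ T₁ T₂ G p₁ p₂) (hc : Γ.Connected) {x y y' m : V}
    (xy : T₁.Adj (p₁ x) (p₁ y)) (xy' : T₁.Adj (p₁ x) (p₁ y')) (e1 : p₂ x = p₂ y)
    (e2 : p₂ x = p₂ y') (ym : Γ.Adj y m) (ym' : Γ.Adj y' m) (hne : y ≠ y') (hm : x ≠ m) :
    False := by
  rcases h.cases ym with ⟨a1, a2⟩ | ⟨a1, a2⟩ <;> rcases h.cases ym' with ⟨b1, b2⟩ | ⟨b1, b2⟩
  · have s1 := tstep h.tree₁ a1 (p₁ x)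
    have d1 := SimpleGraph.dist_eq_one_iff_adj.2 xy
    have d1' := SimpleGraph.dist_eq_one_iff_adj.2 xy'
    have h0 : T₁.dist (p₁ x) (p₁ m) ≠ 0 := fun h0 =>
      hm (h.inj hc (h.tree₁.connected.dist_eq_zero_iff.1 h0) (e1.trans a2))
    apply hne
    refine h.inj hc ?_ (by rw [← e1, e2])
    exact tuniq h.tree₁ a1.symm b1.symm (z := p₁ x) (by omega) (by omega)
  · exact b2.ne (by rw [← e2, e1, a2])
  · exact a2.ne (by rw [← e1, e2, b2])
  · exact hne (h.inj hc (a1.trans b1.symm) (by rw [← e1, e2]))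

/-- the two edges of a square at a vertex have different types -/
theorem corner (h : IsVH Γ T₁ T₂ G p₁ p₂) (hc : Γ.Connected) {x y y' m : V} (xy : Γ.Adj x y)
    (xy' : Γ.Adj x y') (ym : Γ.Adj y m) (ym' : Γ.Adj y' m) (hne : y ≠ y') (hm : x ≠ m) :
    p₁ x = p₁ y ↔ p₁ x ≠ p₁ y' := by
  rcases h.cases xy with ⟨a1, a2⟩ | ⟨a1, a2⟩ <;> rcases h.cases xy' with ⟨b1, b2⟩ | ⟨b1, b2⟩
  · exact (h.no11 hc a1 b1 a2 b2 ym ym' hne hm).elim
  · exact ⟨fun e => (a1.ne e).elim, fun e => (e b1).elim⟩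
  · exact ⟨fun _ => b1.ne, fun _ => a1⟩
  · exact (h.swap.no11 hc a2 b2 a1 b1 ym ym' hne hm).elim

theorem noCube (h : IsVH Γ T₁ T₂ G p₁ p₂) (hc : Γ.Connected) : ¬ HasCube Γ := by
  rintro ⟨c, hinj, h1, h2, h3⟩
  have k1 := h.corner hc (h1 false false) (h2 false false) (h2 true false) (h1 true false)
    (fun e => by simpa using hinj e) (fun e => by simpa using hinj e)
  have k2 := h.corner hc (h1 false false) (h3 false false) (h3 true false) (h1 false true)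
    (fun e => by simpa using hinj e) (fun e => by simpa using hinj e)
  have k3 := h.corner hc (h2 false false) (h3 false false) (h3 false true) (h2 false true)
    (fun e => by simpa using hinj e) (fun e => by simpa using hinj e)
  tauto

/-- the type of the horizontal edges of a flat is constant -/
theorem flat_type (h : IsVH Γ T₁ T₂ G p₁ p₂) (hc : Γ.Connected) {f : ℤ × ℤ → V}
    (hf : IsFlat Γ f) : (∀ x y : ℤ, p₁ (f (x, y)) = p₁ (f (0, y))) ∨
      ∀ x y : ℤ, p₁ (f (x, y)) = p₁ (f (x, 0)) := by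
  have hne : ∀ z w : ℤ × ℤ, z ≠ w → f z ≠ f w := fun z w hzw e => hzw (hf.inj e)
  have c1 : ∀ x y : ℤ, p₁ (f (x, y)) = p₁ (f (x + 1, y)) ↔ p₁ (f (x, y)) ≠ p₁ (f (x, y + 1)) :=
    fun x y => h.corner hc (hf.right x y) (hf.up x y) (hf.up (x + 1) y) (hf.right x (y + 1))
      (hne _ _ (by simp)) (hne _ _ (by simp))
  have c2 : ∀ x y : ℤ, p₁ (f (x, y)) = p₁ (f (x + 1, y)) ↔
      p₁ (f (x + 1, y)) ≠ p₁ (f (x + 1, y + 1)) := by
    intro x y
    have := h.corner hc (hf.right x y).symm (hf.up (x + 1) y) (hf.up x y)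
      (hf.right x (y + 1)).symm (hne _ _ (by simp)) (hne _ _ (by simp))
    rw [← this]
    exact eq_comm
  have c3 : ∀ x y : ℤ, p₁ (f (x, y + 1)) = p₁ (f (x + 1, y + 1)) ↔
      p₁ (f (x, y)) ≠ p₁ (f (x, y + 1)) := by
    intro x y
    have := h.corner hc (hf.right x (y + 1)) (hf.up x y).symm (hf.up (x + 1) y).symm
      (hf.right x y) (hne _ _ (by simp)) (hne _ _ (by simp))
    rw [this]
    exact ne_comm
  have hx : ∀ x y : ℤ, (p₁ (f (x, y)) = p₁ (f (x + 1, y)) ↔ p₁ (f (0, y)) = p₁ (f (0 + 1, y))) := by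
    intro x y
    induction x using Int.induction_on with
    | zero => rfl
    | succ n ih => rw [← ih, c2 n y, c1 (n + 1) y]
    | pred n ih =>
      rw [← ih, c2 (-n - 1) y, c1 (-n) y]
      rw [show (-(n : ℤ) - 1 + 1) = -n by ring]
  have hy : ∀ x y : ℤ, (p₁ (f (x, y)) = p₁ (f (x + 1, y)) ↔ p₁ (f (x, 0)) = p₁ (f (x + 1, 0))) := by
    intro x y
    induction y using Int.induction_on with
    | zero => rfl
    | succ n ih => rw [← ih, c1 x n, c3 x n]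
    | pred n ih =>
      rw [← ih, c1 x (-n - 1)]
      have := c3 x (-n - 1)
      rw [show (-(n : ℤ) - 1 + 1) = -n by ring] at this ⊢
      rw [this]
  by_cases h0 : p₁ (f (0, 0)) = p₁ (f (0 + 1, 0))
  · left
    have key : ∀ x y : ℤ, p₁ (f (x, y)) = p₁ (f (x + 1, y)) := fun x y => by
      rw [hy, hx]
      exact h0
    intro x y
    induction x using Int.induction_on with
    | zero => rfl
    | succ n ih => rw [← key n y, ih]
    | pred n ih =>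
      rw [key (-n - 1) y, show (-(n : ℤ) - 1 + 1) = -n by ring, ih]
  · right
    have key : ∀ x y : ℤ, p₁ (f (x, y)) = p₁ (f (x, y + 1)) := fun x y => by
      by_contra hcon
      apply h0
      rw [← hx x, ← hy x y]
      exact (c1 x y).2 hcon
    intro x y
    induction y using Int.induction_on with
    | zero => rfl
    | succ n ih => rw [← key x n, ih]
    | pred n ih =>
      rw [key x (-n - 1), show (-(n : ℤ) - 1 + 1) = -n by ring, ih]

theorem dist_row (h : IsVH Γ T₁ T₂ G p₁ p₂) {f : ℤ × ℤ → V} (hf : IsFlat Γ f)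
    (hr : ∀ x y : ℤ, p₁ (f (x, y)) = p₁ (f (0, y))) (x x' y : ℤ) :
    (T₂.dist (p₂ (f (x, y))) (p₂ (f (x', y))) : ℤ) = |x - x'| := by
  have h1 := hf (x, y) (x', y)
  rw [h.dist, hr x y, hr x' y, SimpleGraph.dist_self] at h1
  simpa using h1

/-- the columns -/
theorem col (h : IsVH Γ T₁ T₂ G p₁ p₂) (hc : Γ.Connected) {f : ℤ × ℤ → V} (hf : IsFlat Γ f)
    (hr : ∀ x y : ℤ, p₁ (f (x, y)) = p₁ (f (0, y))) (x y : ℤ) :
    p₂ (f (x, y)) = p₂ (f (x, 0)) := by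
  have hne : ∀ z w : ℤ × ℤ, z ≠ w → f z ≠ f w := fun z w hzw e => hzw (hf.inj e)
  have c1 : ∀ x y : ℤ, p₁ (f (x, y)) = p₁ (f (x + 1, y)) ↔ p₁ (f (x, y)) ≠ p₁ (f (x, y + 1)) :=
    fun x y => h.corner hc (hf.right x y) (hf.up x y) (hf.up (x + 1) y) (hf.right x (y + 1))
      (hne _ _ (by simp)) (hne _ _ (by simp))
  have key : ∀ x y : ℤ, p₂ (f (x, y)) = p₂ (f (x, y + 1)) := by
    intro x y
    have h1 := (c1 x y).1 (by rw [hr x y, hr (x + 1) y])
    rcases h.cases (hf.up x y) with ⟨-, h2⟩ | ⟨h2, -⟩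
    · exact h2
    · exact absurd h2 h1
  induction y using Int.induction_on with
  | zero => rfl
  | succ n ih => rw [← key x n, ih]
  | pred n ih =>
    rw [key x (-n - 1), show (-(n : ℤ) - 1 + 1) = -n by ring, ih]

theorem dist_col (h : IsVH Γ T₁ T₂ G p₁ p₂) (hc : Γ.Connected) {f : ℤ × ℤ → V}
    (hf : IsFlat Γ f) (hr : ∀ x y : ℤ, p₁ (f (x, y)) = p₁ (f (0, y))) (x y y' : ℤ) :
    (T₁.dist (p₁ (f (x, y))) (p₁ (f (x, y'))) : ℤ) = |y - y'| := by
  have h1 := hf (x, y) (x, y')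
  rw [h.dist, h.col hc hf hr x y, h.col hc hf hr x y', SimpleGraph.dist_self] at h1
  simpa using h1

/-- half-spaces of horizontal edges -/
theorem mem_hs (h : IsVH Γ T₁ T₂ G p₁ p₂) {v₀ v₁ : V} (e : p₂ v₀ = p₂ v₁) (v : V) :
    v ∈ HS Γ v₀ v₁ ↔ Sd T₁ (p₁ v₀) (p₁ v₁) (p₁ v) := by
  show Γ.dist v v₁ < Γ.dist v v₀ ↔ T₁.dist (p₁ v) (p₁ v₁) < T₁.dist (p₁ v) (p₁ v₀)
  rw [h.dist, h.dist, e]
  omega

/-- an element which preserves the half-space of a horizontal edge fixes the edge of the tree -/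
theorem fix_edge (h : IsVH Γ T₁ T₂ G p₁ p₂) {v₀ v₁ : V} (a : T₁.Adj (p₁ v₀) (p₁ v₁))
    (e : p₂ v₀ = p₂ v₁) {g : G} (hg : ∀ v, v ∈ HS Γ v₀ v₁ ↔ g • v ∈ HS Γ v₀ v₁) :
    g • p₁ v₀ = p₁ v₀ ∧ g • p₁ v₁ = p₁ v₁ := by
  apply tcross h.tree₁ a (h.adj₁ g _ _ a)
  · rw [← h.eq₁, ← h.mem_hs e, ← hg, h.mem_hs e]
    exact sd_not
  · rw [← h.eq₁, ← h.mem_hs e, ← hg, h.mem_hs e]
    exact sd_self a

theorem squares_smul {K : Set V} (hG : Geo Γ G K) (g : G) (v v' : V) :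
    squares Γ (g • v) (g • v') = squares Γ v v' := by
  have hadj : ∀ (g : G) (a b : V), Γ.Adj (g • a) (g • b) ↔ Γ.Adj a b := by
    intro g a b
    refine ⟨fun h1 => ?_, hG.adj g a b⟩
    have := hG.adj g⁻¹ _ _ h1
    rwa [inv_smul_smul, inv_smul_smul] at this
  unfold squares
  rw [show {w | w ≠ g • v' ∧ Γ.Adj (g • v) w ∧ ∃ w', w' ≠ g • v ∧ Γ.Adj w w' ∧
      Γ.Adj (g • v') w'} = (fun w => g • w) '' {w | w ≠ v' ∧ Γ.Adj v w ∧ ∃ w', w' ≠ v ∧
      Γ.Adj w w' ∧ Γ.Adj v' w'} from ?_, Set.ncard_image_of_injective _ (MulAction.injective g)]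
  ext w
  constructor
  · rintro ⟨h1, h2, w', h3, h4, h5⟩
    refine ⟨g⁻¹ • w, ⟨fun e => h1 (by rw [← e, smul_inv_smul]), ?_, g⁻¹ • w',
      fun e => h3 (by rw [← e, smul_inv_smul]), ?_, ?_⟩, smul_inv_smul g w⟩
    · rw [← hadj g, smul_inv_smul]
      exact h2
    · rw [← hadj g, smul_inv_smul, smul_inv_smul]
      exact h4
    · rw [← hadj g, smul_inv_smul]
      exact h5
  · rintro ⟨u, ⟨h1, h2, w', h3, h4, h5⟩, rfl⟩
    exact ⟨fun e => h1 (smul_left_cancel g e), (hadj g _ _).2 h2, g • w',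
      fun e => h3 (smul_left_cancel g e), (hadj g _ _).2 h4, (hadj g _ _).2 h5⟩

theorem excess_smul {K : Set V} (h : IsVH Γ T₁ T₂ G p₁ p₂) (hG : Geo Γ G K) (g : G) (a : A)
    (m : ℕ) (hE : ExcessLE Γ G p₁ a m) : ExcessLE Γ G p₁ (g • a) m := by
  classical
  intro s h1 h2
  have hinj : Injective fun e : V × V => (g⁻¹ • e.1, g⁻¹ • e.2) := by
    rintro ⟨x, y⟩ ⟨x', y'⟩ e
    simp only [Prod.mk.injEq] at e
    rw [smul_left_cancel _ e.1, smul_left_cancel _ e.2]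
  have := hE (s.image fun e => (g⁻¹ • e.1, g⁻¹ • e.2)) ?_ ?_
  · rw [Finset.sum_image (fun x _ y _ e => hinj e)] at this
    simpa only [squares_smul hG] using this
  · intro e he
    obtain ⟨u, hu, rfl⟩ := Finset.mem_image.1 he
    obtain ⟨k1, k2, k3⟩ := h1 u hu
    refine ⟨hG.adj _ _ _ k1, ?_, ?_⟩
    · rw [h.eq₁, k2, inv_smul_smul]
    · rw [h.eq₁]
      intro e
      apply k3
      rw [← e, smul_inv_smul]
  · intro e he e' he' γ k1 k2
    obtain ⟨u, hu, rfl⟩ := Finset.mem_image.1 he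
    obtain ⟨u', hu', rfl⟩ := Finset.mem_image.1 he'
    simp only [] at k1 k2 ⊢
    rw [h2 u hu u' hu' (g * γ * g⁻¹) ?_ ?_]
    · rw [mul_smul, mul_smul, k1, smul_inv_smul]
    · rw [mul_smul, mul_smul, k2, smul_inv_smul]

end IsVH

/-- a path which is moved by `ℓ` steps by `g` gives a line -/
theorem axis_of {G B : Type*} [Group G] [MulAction G B] {T : SimpleGraph B} (hT : T.IsTree)
    (hadj : ∀ (g : G) (b b' : B), T.Adj b b' → T.Adj (g • b) (g • b')) {lam : ℤ → B}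
    (hl : ∀ x x' : ℤ, (T.dist (lam x) (lam x') : ℤ) = |x - x'|) {g : G} {ℓ : ℕ} (hℓ : 0 < ℓ)
    (h0 : g • lam 0 = lam ℓ) (h1 : g • lam 1 = lam (ℓ + 1)) :
    ∃ β : ℤ → B, (∀ m n : ℤ, (T.dist (β m) (β n) : ℤ) = |m - n|) ∧ (∀ n, g • β n = β (n + ℓ)) ∧
      ∀ n, ∃ (q t : ℤ), β n = g ^ q • lam t := by
  have hℓ' : (0 : ℤ) < ℓ := by exact_mod_cast hℓ
  let β : ℤ → B := fun n => g ^ (n / ℓ) • lam (n % ℓ)
  have key : ∀ q t : ℤ, 0 ≤ t → t ≤ ℓ + 1 → β (q * ℓ + t) = g ^ q • lam t := by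
    have k1 : ∀ q t : ℤ, 0 ≤ t → t < ℓ → β (q * ℓ + t) = g ^ q • lam t := by
      intro q t t0 t1
      have e1 : (q * ℓ + t) / ℓ = q := by
        rw [Int.add_comm, Int.add_mul_ediv_right _ _ hℓ'.ne', Int.ediv_eq_zero_of_lt t0 t1, zero_add]
      have e2 : (q * ℓ + t) % ℓ = t := by
        rw [Int.add_comm, Int.add_mul_emod_self_right, Int.emod_eq_of_lt t0 t1]
      show g ^ ((q * ℓ + t) / ℓ) • lam ((q * ℓ + t) % ℓ) = _
      rw [e1, e2]
    have k2 : ∀ q : ℤ, β (q * ℓ + ℓ) = g ^ q • lam ℓ := by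
      intro q
      rw [show q * (ℓ : ℤ) + ℓ = (q + 1) * ℓ + 0 by ring, k1 _ 0 le_rfl hℓ', zpow_add_one,
        mul_smul, h0]
    intro q t t0 t1
    rcases lt_or_ge t ℓ with h2 | h2
    · exact k1 q t t0 h2
    rcases eq_or_lt_of_le h2 with rfl | h3
    · exact k2 q
    · obtain rfl : t = ℓ + 1 := by omega
      rw [show q * (ℓ : ℤ) + (ℓ + 1) = (q + 1) * ℓ + 1 by ring, ← h1, ← mul_smul,
        ← zpow_add_one]
      rcases lt_or_ge 1 (ℓ : ℤ) with h4 | h4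
      · exact k1 _ 1 (by omega) h4
      · have h5 : (ℓ : ℤ) = 1 := by omega
        have := k2 (q + 1)
        rw [h5] at this ⊢
        exact this
  have rep : ∀ n : ℤ, ∃ q t : ℤ, n = q * ℓ + t ∧ 0 ≤ t ∧ t < ℓ := fun n =>
    ⟨n / ℓ, n % ℓ, (Int.ediv_mul_add_emod n ℓ).symm, Int.emod_nonneg _ hℓ'.ne',
      Int.emod_lt_of_pos _ hℓ'⟩
  have hadj' : ∀ x : ℤ, T.Adj (lam x) (lam (x + 1)) := fun x => by
    apply SimpleGraph.dist_eq_one_iff_adj.1
    have := hl x (x + 1)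
    rw [show x - (x + 1) = -1 by ring] at this
    simpa using this
  refine ⟨β, line_geod hT (fun n => ?_) fun n => ?_, fun n => ?_, fun n => ⟨_, _, rfl⟩⟩
  · obtain ⟨q, t, rfl, t0, t1⟩ := rep n
    rw [show q * (ℓ : ℤ) + t + 1 = q * ℓ + (t + 1) by ring, key q t t0 (by omega),
      key q (t + 1) (by omega) (by omega)]
    exact hadj _ _ _ (hadj' t)
  · obtain ⟨q, t, rfl, t0, t1⟩ := rep n
    rw [show q * (ℓ : ℤ) + t + 1 + 1 = q * ℓ + (t + 2) by ring, key q t t0 (by omega),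
      key q (t + 2) (by omega) (by omega)]
    intro e
    have h2 := hl t (t + 2)
    rw [smul_left_cancel _ e, SimpleGraph.dist_self, show t - (t + 2) = -2 by ring] at h2
    simp at h2
  · obtain ⟨q, t, rfl, t0, t1⟩ := rep n
    rw [show q * (ℓ : ℤ) + t + ℓ = (q + 1) * ℓ + t by ring, key q t t0 (by omega),
      key (q + 1) t t0 (by omega), add_comm q 1, zpow_add, zpow_one, mul_smul]

end Pool.Agent.H348.VH
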