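import Pool.Agent.H348.VH.Ord
import Pool.Agent.H348.VH.Dich
import Pool.Graph.R_pool_sql_team_seeded_9f66d723.W5h69.CR.Act

/-!
# VH complexes as subcomplexes of products of two trees
-/

set_option autoImplicit false

namespace Pool.Agent.H348.VH

open Function Set Relation
open Pool.Agent.W5h69.CR

/-- The group `G` acts on the graph `Γ` and on the trees `T₁`, `T₂`, and the maps `p₁`, `p₂` of the
vertices of `Γ` to the vertices of the trees are equivariant and embed `Γ` isometrically into the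
product of the trees (with the sum of the metrics).  The vertical edges are those whose ends have the
same image in `T₁`, the horizontal edges are those whose ends have the same image in `T₂`. -/
structure IsVH {V A B : Type*} (Γ : SimpleGraph V) (T₁ : SimpleGraph A) (T₂ : SimpleGraph B)
    (G : Type*) [Group G] [MulAction G V] [MulAction G A] [MulAction G B] (p₁ : V → A)
    (p₂ : V → B) : Prop where
  tree₁ : T₁.IsTree
  tree₂ : T₂.IsTree
  adj₁ : ∀ (g : G) (a a' : A), T₁.Adj a a' → T₁.Adj (g • a) (g • a')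
  adj₂ : ∀ (g : G) (b b' : B), T₂.Adj b b' → T₂.Adj (g • b) (g • b')
  eq₁ : ∀ (g : G) (v : V), p₁ (g • v) = g • p₁ v
  eq₂ : ∀ (g : G) (v : V), p₂ (g • v) = g • p₂ v
  dist : ∀ v w : V, Γ.dist v w = T₁.dist (p₁ v) (p₁ w) + T₂.dist (p₂ v) (p₂ w)

/-- The number of squares which contain the edge `vv'`. -/
noncomputable def squares {V : Type*} (Γ : SimpleGraph V) (v v' : V) : ℕ :=
  {w | w ≠ v' ∧ Γ.Adj v w ∧ ∃ w', w' ≠ v ∧ Γ.Adj w w' ∧ Γ.Adj v' w'}.ncard

/-- The excess of the horizontal edges at the vertical component `p₁ ⁻¹' {a}` is at most `m`: for any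
finite set of horizontal edges which start in this component and are pairwise inequivalent under
`G`, the sum of the numbers (number of squares containing the edge) - 2, taken as zero if negative,
is at most `m`. -/
def ExcessLE {V A : Type*} (Γ : SimpleGraph V) (G : Type*) [Group G] [MulAction G V] (p₁ : V → A)
    (a : A) (m : ℕ) : Prop :=
  ∀ s : Finset (V × V), (∀ e ∈ s, Γ.Adj e.1 e.2 ∧ p₁ e.1 = a ∧ p₁ e.2 ≠ a) →
    (∀ e ∈ s, ∀ e' ∈ s, ∀ g : G, g • e.1 = e'.1 → g • e.2 = e'.2 → e = e') →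
    ∑ e ∈ s, (squares Γ e.1 e.2 - 2) ≤ m

section tree

variable {W : Type*} {T : SimpleGraph W}

theorem between_uniq (hT : T.IsTree) {x y : W} (n : ℕ) : ∀ z z' : W, T.dist z y = n →
    T.dist x z + T.dist z y = T.dist x y → T.dist x z' + T.dist z' y = T.dist x y →
    T.dist x z = T.dist x z' → z = z' := by
  induction n with
  | zero =>
    intro z z' h0 h1 h2 h3
    have e1 := hT.connected.dist_eq_zero_iff.1 h0
    have e2 : z' = y := hT.connected.dist_eq_zero_iff.1 (by omega)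
    rw [e1, e2]
  | succ n ih =>
    intro z z' h0 h1 h2 h3
    have nb : ∀ z : W, T.dist z y = n + 1 → T.dist x z + T.dist z y = T.dist x y →
        ∃ w, T.Adj z w ∧ T.dist w y = n ∧ T.dist x w = T.dist x z + 1 ∧
          T.dist x w + T.dist w y = T.dist x y := by
      intro z h4 h5
      obtain ⟨u, u0, -, hadj, hd⟩ := geod hT z y
      have h6 := hadj 0 (by omega)
      have h7 := hd 1 (by omega)
      rw [u0, zero_add] at h6
      have h8 := hT.connected.dist_triangle (u := x) (v := u 1) (w := y)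
      have h9 := hT.connected.dist_triangle (u := x) (v := z) (w := u 1)
      have h10 := SimpleGraph.dist_eq_one_iff_adj.2 h6
      exact ⟨u 1, h6, by omega, by omega, by omega⟩
    obtain ⟨w, a1, a2, a3, a4⟩ := nb z h0 h1
    obtain ⟨w', b1, b2, b3, b4⟩ := nb z' (by omega) h2
    have e := ih w w' a2 a4 b4 (by omega)
    subst e
    exact tuniq hT a1.symm b1.symm (z := x) a3 b3

end tree

variable {V A B : Type*} {Γ : SimpleGraph V} {T₁ : SimpleGraph A} {T₂ : SimpleGraph B}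
  {G : Type*} [Group G] [MulAction G V] [MulAction G A] [MulAction G B] {p₁ : V → A} {p₂ : V → B}

/-- the vertices of the second tree over a vertex of the first one -/
def Fib (p₁ : V → A) (p₂ : V → B) (a : A) : Set B := {b | ∃ v, p₁ v = a ∧ p₂ v = b}

namespace IsVH

theorem inj (h : IsVH Γ T₁ T₂ G p₁ p₂) (hc : Γ.Connected) {v w : V} (h1 : p₁ v = p₁ w)
    (h2 : p₂ v = p₂ w) : v = w := by
  have := h.dist v w
  rw [h1, h2, SimpleGraph.dist_self, SimpleGraph.dist_self] at this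
  exact hc.dist_eq_zero_iff.1 this

theorem adj_of₁ (h : IsVH Γ T₁ T₂ G p₁ p₂) {v w : V} (h1 : T₁.Adj (p₁ v) (p₁ w))
    (h2 : p₂ v = p₂ w) : Γ.Adj v w := by
  have := h.dist v w
  rw [h2, SimpleGraph.dist_self, SimpleGraph.dist_eq_one_iff_adj.2 h1] at this
  exact SimpleGraph.dist_eq_one_iff_adj.1 this

theorem adj_of₂ (h : IsVH Γ T₁ T₂ G p₁ p₂) {v w : V} (h1 : p₁ v = p₁ w)
    (h2 : T₂.Adj (p₂ v) (p₂ w)) : Γ.Adj v w := by
  have := h.dist v w
  rw [h1, SimpleGraph.dist_self, SimpleGraph.dist_eq_one_iff_adj.2 h2] at this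
  exact SimpleGraph.dist_eq_one_iff_adj.1 this

theorem cases (h : IsVH Γ T₁ T₂ G p₁ p₂) {v w : V} (hvw : Γ.Adj v w) :
    (T₁.Adj (p₁ v) (p₁ w) ∧ p₂ v = p₂ w) ∨ (p₁ v = p₁ w ∧ T₂.Adj (p₂ v) (p₂ w)) := by
  have h1 := h.dist v w
  rw [SimpleGraph.dist_eq_one_iff_adj.2 hvw] at h1
  rcases Nat.eq_zero_or_pos (T₁.dist (p₁ v) (p₁ w)) with h2 | h2
  · right
    exact ⟨h.tree₁.connected.dist_eq_zero_iff.1 h2,
      SimpleGraph.dist_eq_one_iff_adj.1 (by omega)⟩
  · left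
    exact ⟨SimpleGraph.dist_eq_one_iff_adj.1 (by omega),
      h.tree₂.connected.dist_eq_zero_iff.1 (by omega)⟩

theorem smul_fib (h : IsVH Γ T₁ T₂ G p₁ p₂) (g : G) {a : A} {x : B} :
    g • x ∈ Fib p₁ p₂ (g • a) ↔ x ∈ Fib p₁ p₂ a := by
  constructor
  · rintro ⟨v, h1, h2⟩
    refine ⟨g⁻¹ • v, ?_, ?_⟩
    · rw [h.eq₁, h1, inv_smul_smul]
    · rw [h.eq₂, h2, inv_smul_smul]
  · rintro ⟨v, h1, h2⟩
    exact ⟨g • v, by rw [h.eq₁, h1], by rw [h.eq₂, h2]⟩

theorem cvx (h : IsVH Γ T₁ T₂ G p₁ p₂) (hc : Γ.Connected) (a : A) : Cvx T₂ (Fib p₁ p₂ a) := by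
  rintro x ⟨v, hv, rfl⟩ y ⟨w, hw, rfl⟩ z hz
  obtain ⟨p, hp⟩ := hc.exists_walk_length_eq_dist v w
  have hd := h.dist v w
  rw [hv, hw, SimpleGraph.dist_self, zero_add] at hd
  obtain ⟨j, hj⟩ : ∃ j, j = T₂.dist (p₂ v) z := ⟨_, rfl⟩
  have hjl : j ≤ p.length := by omega
  have h1 : Γ.dist v (p.getVert j) ≤ j := by
    have := SimpleGraph.dist_le (p.take j)
    rw [SimpleGraph.Walk.take_length] at this
    omega
  have h2 : Γ.dist (p.getVert j) w ≤ p.length - j := by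
    have := SimpleGraph.dist_le (p.drop j)
    rw [SimpleGraph.Walk.drop_length] at this
    omega
  have h3 := h.dist v (p.getVert j)
  have h4 := h.dist (p.getVert j) w
  rw [hv] at h3
  rw [hw] at h4
  have h5 : T₁.dist (p₁ (p.getVert j)) a = T₁.dist a (p₁ (p.getVert j)) := SimpleGraph.dist_comm
  have h6 := h.tree₂.connected.dist_triangle (u := p₂ v) (v := p₂ (p.getVert j)) (w := p₂ w)
  have h7 : T₁.dist a (p₁ (p.getVert j)) = 0 := by omega
  refine ⟨p.getVert j, (h.tree₁.connected.dist_eq_zero_iff.1 h7).symm, ?_⟩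
  exact between_uniq h.tree₂ _ _ _ rfl (by omega) hz (by omega)

/-- pigeonhole principle for the strips -/
theorem pig {K : Set V} (h : IsVH Γ T₁ T₂ G p₁ p₂) (hG : Geo Γ G K) {a c : A} (hac : T₁.Adj a c)
    {U : Set B} (hU : U ⊆ Fib p₁ p₂ a ∩ Fib p₁ p₂ c) (hi : U.Infinite) :
    ∃ γ : G, γ • a = a ∧ γ • c = c ∧ ∃ u ∈ U, γ • u ∈ U ∧ γ • u ≠ u := by
  classical
  have hK2 : {e : V × V | e.1 ∈ K ∧ Γ.Adj e.1 e.2}.Finite := by
    refine (hG.fin.biUnion fun k _ => (hG.loc k).image fun w => (k, w)).subset ?_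
    rintro ⟨k, w⟩ ⟨h1, h2⟩
    rw [Set.mem_iUnion₂]
    exact ⟨k, h1, w, h2, rfl⟩
  have hch : ∀ u : B, u ∈ U → ∃ v w : V, p₁ v = a ∧ p₂ v = u ∧ p₁ w = c ∧ p₂ w = u ∧
      ∃ g : G, g • v ∈ K := by
    intro u hu
    obtain ⟨⟨v, v1, v2⟩, ⟨w, w1, w2⟩⟩ := hU hu
    exact ⟨v, w, v1, v2, w1, w2, hG.cov v⟩
  have : Nonempty V := hG.med.1.nonempty
  choose! v w v1 v2 w1 w2 g hg using hch
  have hmaps : Set.MapsTo (fun u => (g u • v u, g u • w u)) U
      {e : V × V | e.1 ∈ K ∧ Γ.Adj e.1 e.2} := fun u hu =>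
    ⟨hg u hu, hG.adj _ _ _ (h.adj_of₁ (by rw [v1 u hu, w1 u hu]; exact hac)
      (by rw [v2 u hu, w2 u hu]))⟩
  obtain ⟨u, hu, u', hu', hne, he⟩ := hi.exists_ne_map_eq_of_mapsTo hmaps hK2
  simp only [Prod.mk.injEq] at he
  have e1 : ((g u')⁻¹ * g u) • v u = v u' := by rw [mul_smul, he.1, inv_smul_smul]
  have e2 : ((g u')⁻¹ * g u) • w u = w u' := by rw [mul_smul, he.2, inv_smul_smul]
  have e3 : ((g u')⁻¹ * g u) • u = u' := by
    have := h.eq₂ ((g u')⁻¹ * g u) (v u)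
    rw [e1, v2 u hu, v2 u' hu'] at this
    exact this.symm
  refine ⟨(g u')⁻¹ * g u, ?_, ?_, u, hu, by rw [e3]; exact hu', by rw [e3]; exact hne.symm⟩
  · have := h.eq₁ ((g u')⁻¹ * g u) (v u)
    rw [e1, v1 u hu, v1 u' hu'] at this
    exact this.symm
  · have := h.eq₁ ((g u')⁻¹ * g u) (w u)
    rw [e2, w1 u hu, w1 u' hu'] at this
    exact this.symm

theorem nb_finite {K : Set V} (h : IsVH Γ T₁ T₂ G p₁ p₂) (hG : Geo Γ G K) {a : A} {x : B}
    (hx : x ∈ Fib p₁ p₂ a) : {w | T₂.Adj x w ∧ w ∈ Fib p₁ p₂ a}.Finite := by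
  obtain ⟨v, v1, v2⟩ := hx
  refine ((hG.loc v).image p₂).subset ?_
  rintro y ⟨h1, ⟨w, w1, w2⟩⟩
  refine ⟨w, ?_, w2⟩
  exact h.adj_of₂ (by rw [v1, w1]) (by rw [v2, w2]; exact h1)

theorem countable {K : Set V} (_h : IsVH Γ T₁ T₂ G p₁ p₂) (hG : Geo Γ G K) (a : A) :
    (Fib p₁ p₂ a).Countable := by
  obtain ⟨v₀⟩ := hG.med.1.nonempty
  have h1 : (Set.univ : Set V).Countable := by
    have h2 : (⋃ n : ℕ, {w | Γ.dist v₀ w ≤ n}).Countable :=
      Set.countable_iUnion fun n => (hG.ball n v₀).countable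
    refine h2.mono fun w _ => ?_
    rw [Set.mem_iUnion]
    exact ⟨Γ.dist v₀ w, le_refl (Γ.dist v₀ w)⟩
  refine (h1.image p₂).mono ?_
  rintro x ⟨v, -, hv⟩
  exact ⟨v, trivial, hv⟩

end IsVH

end Pool.Agent.H348.VH
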