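import Pool.Agent.H348.VH.Flat

/-!
# Excess along the columns of flats
-/

set_option autoImplicit false

namespace Pool.Agent.H348.VH

open Function Set Relation
open Pool.Agent.W5h69.CR
open Pool.Agent.H348.GB

variable {V A B : Type*} {Γ : SimpleGraph V} {T₁ : SimpleGraph A} {T₂ : SimpleGraph B}
  {G : Type*} [Group G] [MulAction G V] [MulAction G A] [MulAction G B] {p₁ : V → A} {p₂ : V → B}

omit [MulAction G A] in
theorem not_excess {a : A} {n m : ℕ} (hnm : n < m)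
    (h : ∃ s : Finset (V × V), (∀ e ∈ s, Γ.Adj e.1 e.2 ∧ p₁ e.1 = a ∧ p₁ e.2 ≠ a) ∧
      (∀ e ∈ s, ∀ e' ∈ s, ∀ g : G, g • e.1 = e'.1 → g • e.2 = e'.2 → e = e') ∧
      m ≤ ∑ e ∈ s, (squares Γ e.1 e.2 - 2)) : ¬ ExcessLE Γ G p₁ a n := by
  obtain ⟨s, h1, h2, h3⟩ := h
  intro hE
  have := hE s h1 h2
  omega

theorem tripod_excess {K : Set V} (h : IsVH Γ T₁ T₂ G p₁ p₂) (hG : Geo Γ G K)
    (hfree : ∀ (g : G) (v : V), g • v = v → g = 1) (htf : ∀ g : G, g * g = 1 → g = 1)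
    {f k : ℤ × ℤ → V} (hf : IsFlat Γ f) (kf : IsFlat Γ k)
    (hr : ∀ x y : ℤ, p₁ (f (x, y)) = p₁ (f (0, y)))
    (kr : ∀ x y : ℤ, p₁ (k (x, y)) = p₁ (k (0, y))) {N : ℕ} (hN : 1 ≤ N)
    (h1 : ∀ i j : ℤ, -N ≤ j → j ≤ 0 → f (i, j) = k (i, j)) (h2 : f (0, 1) ≠ k (0, 1))
    (hD : ¬ Elem (tripod G Γ f k N)) :
    ¬ ExcessLE Γ G p₁ (p₁ (f (0, 0))) 5 ∧
      ∀ j : ℤ, -N < j → j < 0 → ¬ ExcessLE Γ G p₁ (p₁ (f (0, j))) 3 := by
  have hc := hG.med.1
  have h0 : ∀ i : ℤ, f (i, 0) = k (i, 0) := fun i => h1 i 0 (by omega) le_rfl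
  obtain ⟨i, i', hi0, hlt, g, g1, g2, g3⟩ := recur hG hf kf h0 N 0
  have hgD : g ∈ tripod G Γ f k N := by
    refine ⟨fun j j1 j2 v => ?_, fun v => ?_⟩
    · rw [hs_row hG hf 0 i j]
      nth_rewrite 2 [hs_row hG hf i i' j]
      rw [← g1 j j1 (by omega), ← g1 (j + 1) (by omega) (by omega), hs_smul hG]
    · have e1 : HS Γ (k (0, 0)) (k (0, 1)) = HS Γ (k (i, 0)) (k (i, 1)) := by
        have := hs_row hG kf 0 i 0
        rwa [zero_add] at this
      have e2 : HS Γ (k (i, 0)) (k (i, 1)) = HS Γ (k (i', 0)) (k (i', 1)) := by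
        have := hs_row hG kf i i' 0
        rwa [zero_add] at this
      rw [e1]
      nth_rewrite 2 [e2]
      rw [← h0 i', ← g1 0 (by omega) (by omega), ← g2, hs_smul hG, h0]
  -- the edges of the first tree
  have adjc : ∀ {f : ℤ × ℤ → V}, IsFlat Γ f → (∀ x y : ℤ, p₁ (f (x, y)) = p₁ (f (0, y))) →
      ∀ y : ℤ, T₁.Adj (p₁ (f (0, y))) (p₁ (f (0, y + 1))) := by
    intro f hf hr y
    apply SimpleGraph.dist_eq_one_iff_adj.1
    have := h.dist_col hc hf hr 0 y (y + 1)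
    rw [show y - (y + 1) = -1 by ring] at this
    simpa using this
  have fixD : ∀ d ∈ tripod G Γ f k N, ∀ j : ℤ, -N ≤ j → j ≤ 1 →
      d • p₁ (f (0, j)) = p₁ (f (0, j)) := by
    intro d hd j j1 j2
    rcases lt_or_eq_of_le j2 with j3 | rfl
    · exact (h.fix_edge (adjc hf hr j) (by rw [h.col hc hf hr 0 j, h.col hc hf hr 0 (j + 1)])
        (hd.1 j j1 (by omega))).1
    · have := (h.fix_edge (adjc hf hr 0) (by rw [h.col hc hf hr 0 (0 + 1)])
        (hd.1 0 (by omega) le_rfl)).2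
      simpa using this
  have fixD' : ∀ d ∈ tripod G Γ f k N, d • p₁ (k (0, 1)) = p₁ (k (0, 1)) := by
    intro d hd
    have a0 := adjc kf kr 0
    rw [zero_add] at a0
    exact (h.fix_edge a0 (by rw [h.col hc kf kr 0 1]) hd.2).2
  -- the line
  have hℓ : 0 < (i' - i).toNat := by omega
  have hℓ' : (((i' - i).toNat : ℕ) : ℤ) = i' - i := by omega
  obtain ⟨β, b1, b2, b3⟩ := axis_of h.tree₂ h.adj₂ (lam := fun x => p₂ (f (i + x, 0)))
    (fun x x' => by
      rw [h.dist_row hf hr, show i + x - (i + x') = x - x' by ring]) (g := g) hℓ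
    (by
      show g • p₂ (f (i + 0, 0)) = p₂ (f (i + (((i' - i).toNat : ℕ) : ℤ), 0))
      rw [← h.eq₂, add_zero, g1 0 (by omega) (by omega), hℓ', add_sub_cancel])
    (by
      show g • p₂ (f (i + 1, 0)) = p₂ (f (i + ((((i' - i).toNat : ℕ) : ℤ) + 1), 0))
      rw [← h.eq₂, g3, hℓ', show i + (i' - i + 1) = i' + 1 by ring])
  have powfix : ∀ (a : A), g • a = a → ∀ q : ℤ, g ^ q • a = a := by
    intro a ha q
    have h3 : g ∈ MulAction.stabilizer G a := ha
    exact (MulAction.stabilizer G a).zpow_mem h3 q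
  have memβ : ∀ (a : A), g • a = a → (∀ x : ℤ, p₂ (f (x, 0)) ∈ Fib p₁ p₂ a) →
      ∀ n, β n ∈ Fib p₁ p₂ a := by
    intro a ha hx n
    obtain ⟨q, t, e⟩ := b3 n
    rw [e, ← powfix a ha q, h.smul_fib]
    exact hx _
  have fibf : ∀ j x : ℤ, p₂ (f (x, 0)) ∈ Fib p₁ p₂ (p₁ (f (0, j))) := fun j x =>
    ⟨f (x, j), hr x j, h.col hc hf hr x j⟩
  have fibk : ∀ x : ℤ, p₂ (f (x, 0)) ∈ Fib p₁ p₂ (p₁ (k (0, 1))) := fun x =>
    ⟨k (x, 1), kr x 1, by rw [h.col hc kf kr x 1, h0]⟩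
  have nej : ∀ j : ℤ, p₁ (f (0, j - 1)) ≠ p₁ (f (0, j + 1)) := by
    intro j e
    have := h.dist_col hc hf hr 0 (j - 1) (j + 1)
    rw [e, SimpleGraph.dist_self, show j - 1 - (j + 1) = -2 by ring] at this
    simp at this
  refine ⟨not_excess (m := 2 * 3) (by norm_num) ?_, fun j j1 j2 =>
    not_excess (m := 2 * 2) (by norm_num) ?_⟩
  · have n1 := nej 0
    rw [zero_sub, zero_add] at n1
    have n2 : p₁ (f (0, 1)) ≠ p₁ (k (0, 1)) := by
      intro e
      apply h2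
      exact h.inj hc e (by rw [h.col hc hf hr 0 1, h.col hc kf kr 0 1, h0])
    have n3 : p₁ (f (0, -1)) ≠ p₁ (k (0, 1)) := by
      rw [h1 0 (-1) (by omega) (by omega)]
      intro e
      have := h.dist_col hc kf kr 0 (-1) 1
      rw [e, SimpleGraph.dist_self, show (-1 : ℤ) - 1 = -2 by ring] at this
      simp at this
    have a1 := adjc hf hr (-1)
    have a2 := adjc hf hr 0
    have a3 := adjc kf kr 0
    rw [show (-1 : ℤ) + 1 = 0 by ring] at a1
    rw [zero_add] at a2 a3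
    rw [← h0 0] at a3
    refine h.excess_ge hG hfree htf ![p₁ (f (0, -1)), p₁ (f (0, 1)), p₁ (k (0, 1))] ?_ ?_
      (D := tripod G Γ f k N) (fun d hd => fixD d hd 0 (by omega) (by omega)) ?_ hgD hℓ b1 b2
      (memβ _ (fixD g hgD 0 (by omega) (by omega)) (fibf 0)) ?_ hD
    · intro x y e
      fin_cases x <;> fin_cases y
      · rfl
      · exact absurd e n1
      · exact absurd e n3
      · exact absurd e.symm n1
      · rfl
      · exact absurd e n2
      · exact absurd e.symm n3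
      · exact absurd e.symm n2
      · rfl
    · intro x
      fin_cases x
      · exact a1.symm
      · exact a2
      · exact a3
    · intro d hd x
      fin_cases x
      · exact fixD d hd (-1) (by omega) (by omega)
      · exact fixD d hd 1 (by omega) (by omega)
      · exact fixD' d hd
    · intro n x
      fin_cases x
      · exact memβ _ (fixD g hgD (-1) (by omega) (by omega)) (fibf (-1)) n
      · exact memβ _ (fixD g hgD 1 (by omega) (by omega)) (fibf 1) n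
      · exact memβ _ (fixD' g hgD) fibk n
  · have a1 := adjc hf hr (j - 1)
    have a2 := adjc hf hr j
    rw [sub_add_cancel] at a1
    refine h.excess_ge hG hfree htf ![p₁ (f (0, j - 1)), p₁ (f (0, j + 1))] ?_ ?_
      (D := tripod G Γ f k N) (fun d hd => fixD d hd j (by omega) (by omega)) ?_ hgD hℓ b1 b2
      (memβ _ (fixD g hgD j (by omega) (by omega)) (fibf j)) ?_ hD
    · intro x y e
      fin_cases x <;> fin_cases y
      · rfl
      · exact absurd e (nej j)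
      · exact absurd e.symm (nej j)
      · rfl
    · intro x
      fin_cases x
      · exact a1.symm
      · exact a2
    · intro d hd x
      fin_cases x
      · exact fixD d hd (j - 1) (by omega) (by omega)
      · exact fixD d hd (j + 1) (by omega) (by omega)
    · intro n x
      fin_cases x
      · exact memβ _ (fixD g hgD (j - 1) (by omega) (by omega)) (fibf (j - 1)) n
      · exact memβ _ (fixD g hgD (j + 1) (by omega) (by omega)) (fibf (j + 1)) n

/-- **main theorem** -/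
theorem main {K : Set V} (h : IsVH Γ T₁ T₂ G p₁ p₂) (hG : Geo Γ G K)
    (hfree : ∀ (g : G) (v : V), g • v = v → g = 1) (htf : ∀ g : G, g * g = 1 → g = 1)
    (hZ : ¬ ∃ φ : Multiplicative (ℤ × ℤ) →* G, Function.Injective φ)
    {f : ℤ × ℤ → V} (hf : IsFlat Γ f) (hr : ∀ x y : ℤ, p₁ (f (x, y)) = p₁ (f (0, y))) (N : ℕ) :
    ∃ y : ℤ, ¬ ExcessLE Γ G p₁ (p₁ (f (0, y))) 5 ∧
      ∀ j : ℤ, 0 < j → j ≤ N → ¬ ExcessLE Γ G p₁ (p₁ (f (0, y - j))) 3 := by
  have hc := hG.med.1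
  have h3 := h.noCube hc
  have hL := Orb.sys hG hf
  -- the limit flats have rows in fibres
  have hrow : ∀ k ∈ Orb G f, ∀ x y : ℤ, p₁ (k (x, y)) = p₁ (k (0, y)) := by
    intro k hk x y
    obtain ⟨g, b, hg⟩ := hk (x.natAbs + y.natAbs)
    rw [hg (x, y) (by simp) (by simp), hg (0, y) (by simp) (by simp), h.eq₁, h.eq₁]
    obtain ⟨b1, b2⟩ := b
    simp only [Prod.mk_add_mk]
    rw [hr (x + b1), hr (0 + b1)]
  obtain ⟨h', hh, k, hk, h1, h2⟩ := up_pair hG hL (Orb.self f) hZ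
  have hne : (Amb (Orb G f) (N + 1)).Nonempty :=
    ⟨fun i => h' (i, 0), h', hh, k, hk, fun _ => rfl, fun i j _ hj => h1 i j hj, h2⟩
  by_cases hne' : (AmbN G Γ (Orb G f) (N + 1)).Nonempty
  · obtain ⟨q, f', hf', k', hk', e0, e1, e2, e3⟩ := hne'
    obtain ⟨t1, t2⟩ := tripod_excess h hG hfree htf (hL.flat _ hf') (hL.flat _ hk')
      (hrow f' hf') (hrow k' hk') (N := N + 1) (by omega) e1 e2 e3
    obtain ⟨g, b, hg⟩ := hf' (N + 1)
    have key : ∀ (j : ℤ) (m : ℕ), -(N + 1) ≤ j → j ≤ 0 → ExcessLE Γ G p₁ (p₁ (f (0, b.2 + j))) m →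
        ExcessLE Γ G p₁ (p₁ (f' (0, j))) m := by
      intro j m j1 j2 hE
      rw [hg (0, j) (by simp) (by simp only; omega), h.eq₁]
      apply h.excess_smul hG
      have : p₁ (f ((0, j) + b)) = p₁ (f (0, b.2 + j)) := by
        obtain ⟨b1, b2⟩ := b
        simp only [Prod.mk_add_mk]
        rw [hr (0 + b1), add_comm j b2]
      rw [this]
      exact hE
    refine ⟨b.2, fun hE => t1 (key 0 5 (by omega) le_rfl (by rwa [add_zero])), fun j j1 j2 hE =>
      t2 (-j) (by push_cast; omega) (by omega)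
        (key (-j) 3 (by omega) (by omega) (by rwa [← sub_eq_add_neg]))⟩
  · exfalso
    rw [Set.not_nonempty_iff_eq_empty] at hne'
    have hno : ∀ q : AmbN G Γ (Orb G f) (N + 1), False := fun q =>
      Set.eq_empty_iff_forall_notMem.1 hne' q.1 q.2
    exact hZ (close_tri hG h3 hL hne (M := 0) (fun q => (hno q).elim) (fun q => (hno q).elim))

end Pool.Agent.H348.VH
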