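import Pool.Agent.H348.VH.Tree
import Pool.Graph.R_seed8.Y433.SC.Ord
import Pool.Graph.R_seed8.H40R2.Zd.Serre

/-!
# Invariant orders for free actions on trees
-/

set_option autoImplicit false

namespace Pool.Agent.H348.VH

open Function Set
open Pool.Agent.H40R2.Zd

/-- free groups have a left invariant order (from the Magnus embedding) -/
theorem free_order (B : Type) : ∃ o : LinearOrder (FreeGroup B),
    ∀ a b c : FreeGroup B, o.lt a b → o.lt (c * a) (c * b) := by
  classical
  let : AddAction ℤ B :=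
    { vadd := fun _ b => b
      zero_vadd := fun _ => rfl
      add_vadd := fun _ _ _ => rfl }
  let : LinearOrder (Pool.Agent.H129R3.WMon B) := IsWellOrder.linearOrder WellOrderingRel
  let : LinearOrder (MonoidAlgebra ℚ (Pool.Agent.H129R3.WMon B)) :=
    LinearOrder.lift' (fun x => toLex x.coeff) (by
      intro x y h
      exact MonoidAlgebra.coeff_injective (toLex.injective h))
  obtain ⟨o, ho, -⟩ :=
    Pool.Agent.Y433.SC.abs_ord (A := MonoidAlgebra ℚ (Pool.Agent.H129R3.WMon B)) (by
      intro a b c h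
      have h' : toLex a.coeff < toLex b.coeff := h
      show toLex (a + c).coeff < toLex (b + c).coeff
      rw [MonoidAlgebra.coeff_add, MonoidAlgebra.coeff_add, toLex_add, toLex_add]
      exact add_lt_add_left h' _)
      (Pool.Agent.H129R3.magHom ℚ (J := B)) (by
        intro g h hgh
        have h1 : Pool.Agent.H129R3.mag ℚ (MonoidAlgebra.single g (1:ℚ)) =
            Pool.Agent.H129R3.mag ℚ (MonoidAlgebra.single h (1:ℚ)) := by
          rw [Pool.Agent.H129R3.mag_single, Pool.Agent.H129R3.mag_single, hgh]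
        have h2 := Pool.Agent.H129R3.mag_injective ℚ h1
        have h3 := congrArg MonoidAlgebra.coeff h2
        rw [MonoidAlgebra.coeff_single, MonoidAlgebra.coeff_single] at h3
        exact Finsupp.single_left_injective one_ne_zero h3)
      (fun g => Pool.Agent.H129R3.magHom_zero ℚ g)
  exact ⟨o, ho⟩

universe u v

/-- a free action on a countable tree preserves a linear order of the vertices -/
theorem tree_order {N : Type u} {V : Type v} [Group N] [MulAction N V] [Countable V]
    {T : SimpleGraph V} (hT : T.IsTree)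
    (hadj : ∀ (γ : N) (u v : V), T.Adj u v → T.Adj (γ • u) (γ • v))
    (hfree : ∀ γ : N, ∀ v : V, γ • v = v → γ = 1)
    (hinv : ∀ γ : N, ∀ u v : V, T.Adj u v → ¬ (γ • u = v ∧ γ • v = u)) :
    ∃ f : V → FreeGroup ℕ, Injective f ∧ ∀ γ : N, ∃ w, ∀ x, f (γ • x) = w * f x := by
  classical
  obtain ⟨v0⟩ : Nonempty V := hT.connected.nonempty
  have : Countable (PD N V) := by
    unfold PD
    infer_instance
  obtain ⟨ι, hι⟩ := exists_injective_nat (PD N V)
  let w0 : ∀ u : V, T.Walk v0 u := fun u => Classical.choice (hT.connected.preconnected v0 u)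
  let c : V → FreeGroup (PD N V) := fun u => wt N T (w0 u)
  have hc : ∀ (u : V) (p : T.Walk v0 u), c u = wt N T p := fun u p => wt_eq hT _ _
  have hinj : Injective c := by
    intro x y hxy
    obtain ⟨p⟩ := hT.connected.preconnected x y
    have h1 : c y = c x * wt N T p := by
      rw [hc y ((w0 x).append p), wt_append]
    have h2 : wt N T p = 1 := by
      rw [hxy] at h1
      exact (mul_eq_left.1 h1.symm)
    exact eq_of_wt_one (N := N) hfree hinv p.bypass p.bypass_isPath
      (by rw [wt_eq hT p.bypass p]; exact h2)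
  refine ⟨fun x => FreeGroup.map ι (c x), fun x y hxy => hinj (FreeGroup.map_injective hι hxy),
    fun γ => ⟨FreeGroup.map ι (c (γ • v0)), fun x => ?_⟩⟩
  rw [← map_mul]
  show FreeGroup.map ι (c (γ • x)) = _
  congr 1
  rw [hc (γ • x) ((w0 (γ • v0)).append
    ((w0 x).map (⟨fun x => γ • x, fun {a b} h => hadj γ a b h⟩ : T →g T))), wt_append,
    wt_map hadj]

/-- the vertices of a convex set of a tree are joined by paths in the set -/
theorem Cvx.connected {W : Type*} {T : SimpleGraph W} (hT : T.IsTree) {P : Set W} (hP : Cvx T P)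
    {x y : W} (hx : x ∈ P) (hy : y ∈ P) :
    Relation.ReflTransGen (fun u w => T.Adj u w ∧ u ∈ P ∧ w ∈ P) x y := by
  obtain ⟨u, u0, uL, hadj, hd⟩ := geod hT x y
  have hm : ∀ i ≤ T.dist x y, u i ∈ P := fun i hi => hP x hx y hy _ (by
    have := hd i hi
    omega)
  have key : ∀ i ≤ T.dist x y,
      Relation.ReflTransGen (fun u w => T.Adj u w ∧ u ∈ P ∧ w ∈ P) x (u i) := by
    intro i
    induction i with
    | zero => intro _; rw [u0]
    | succ i ih =>
      intro hi
      exact (ih (by omega)).tail ⟨hadj i (by omega), hm i (by omega), hm (i + 1) hi⟩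
  have := key _ le_rfl
  rwa [uL] at this

/-- **invariant orders** -/
theorem exists_order {W : Type*} {T : SimpleGraph W} (hT : T.IsTree) {G : Type*} [Group G]
    [MulAction G W] (hadj : ∀ (g : G) (x y : W), T.Adj x y → T.Adj (g • x) (g • y))
    (H : Subgroup G) {Q : Set W} (hQ : ∀ h ∈ H, ∀ x ∈ Q, h • x ∈ Q) (hc : Cvx T Q)
    (hne : Q.Nonempty) (hco : Q.Countable) (hfree : ∀ h ∈ H, ∀ x ∈ Q, h • x = x → h = 1)
    (hinv : ∀ h ∈ H, ∀ x ∈ Q, ∀ y ∈ Q, T.Adj x y → ¬ (h • x = y ∧ h • y = x)) :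
    ∃ o : LinearOrder W, ∀ h ∈ H, ∀ x ∈ Q, ∀ y ∈ Q, (o.lt (h • x) (h • y) ↔ o.lt x y) := by
  classical
  let act : MulAction H Q :=
    { smul := fun h x => ⟨(h : G) • (x : W), hQ h h.2 x x.2⟩
      one_smul := fun x => Subtype.ext (one_smul G (x : W))
      mul_smul := fun g h x => Subtype.ext (mul_smul (g : G) (h : G) (x : W)) }
  have hsm : ∀ (h : H) (x : Q), ((h • x : Q) : W) = (h : G) • (x : W) := fun h x => rfl
  have : Countable Q := hco
  have htree : (T.induce Q).IsTree := by
    refine ⟨?_, hT.isAcyclic.induce Q⟩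
    have : Nonempty Q := hne.to_subtype
    refine ⟨fun x y => ?_⟩
    have key : ∀ z : W, Relation.ReflTransGen (fun u w => T.Adj u w ∧ u ∈ Q ∧ w ∈ Q) (x : W) z →
        ∀ hz : z ∈ Q, (T.induce Q).Reachable x ⟨z, hz⟩ := by
      intro z hz
      induction hz with
      | refl => intro _; exact SimpleGraph.Reachable.refl _
      | @tail u w _ h2 ih =>
        intro hw
        refine (ih h2.2.1).trans (SimpleGraph.Adj.reachable ?_)
        exact h2.1
    exact key y (hc.connected hT x.2 y.2) y.2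
  obtain ⟨f, hf, hf2⟩ := tree_order (N := H) (V := Q) (T := T.induce Q) htree
    (fun γ u v huv => hadj γ u v huv)
    (fun γ v hv => Subtype.ext (hfree γ γ.2 v v.2 (congrArg Subtype.val hv)))
    (fun γ u v huv h => hinv γ γ.2 u u.2 v v.2 huv
      ⟨congrArg Subtype.val h.1, congrArg Subtype.val h.2⟩)
  obtain ⟨o, ho⟩ := free_order ℕ
  let := o
  let _ : LinearOrder W := IsWellOrder.linearOrder WellOrderingRel
  let F : W → FreeGroup ℕ ⊕ₗ W := fun x =>
    if h : x ∈ Q then Sum.inlₗ (f ⟨x, h⟩) else Sum.inrₗ x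
  have hF : Injective F := by
    intro x y hxy
    simp only [F] at hxy
    split_ifs at hxy with h1 h2 h2
    · have := hf (Sum.inl.inj (toLex.injective hxy))
      exact congrArg Subtype.val this
    · exact absurd (toLex.injective hxy) (by simp)
    · exact absurd (toLex.injective hxy) (by simp)
    · exact Sum.inr.inj (toLex.injective hxy)
  have hlt : ∀ a b c : FreeGroup ℕ, c * a < c * b ↔ a < b := by
    intro a b c
    refine ⟨fun h => ?_, ho a b c⟩
    have := ho _ _ c⁻¹ h
    rwa [inv_mul_cancel_left, inv_mul_cancel_left] at this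
  refine ⟨LinearOrder.lift' F hF, fun h hh x hx y hy => ?_⟩
  show F (h • x) < F (h • y) ↔ F x < F y
  have e : ∀ z (hz : z ∈ Q), F z = Sum.inlₗ (f ⟨z, hz⟩) := fun z hz => dif_pos hz
  obtain ⟨w, hw⟩ := hf2 ⟨h, hh⟩
  rw [e _ (hQ h hh x hx), e _ (hQ h hh y hy), e x hx, e y hy, Sum.Lex.inl_lt_inl_iff,
    Sum.Lex.inl_lt_inl_iff]
  have e1 := hw ⟨x, hx⟩
  have e2 := hw ⟨y, hy⟩
  have e3 : (⟨h • x, hQ h hh x hx⟩ : Q) = (⟨h, hh⟩ : H) • (⟨x, hx⟩ : Q) := rfl
  have e4 : (⟨h • y, hQ h hh y hy⟩ : Q) = (⟨h, hh⟩ : H) • (⟨y, hy⟩ : Q) := rfl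
  rw [e3, e4, e1, e2, hlt]

end Pool.Agent.H348.VH
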