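import Mathlib

/-!
# Sides of edges, lines and rays in trees
-/

set_option autoImplicit false

namespace Pool.Agent.H348.VH

open Function Set

variable {W : Type*} {T : SimpleGraph W}

theorem tstep (hT : T.IsTree) {x y : W} (xy : T.Adj x y) (z : W) :
    T.dist z y = T.dist z x + 1 ∨ T.dist z x = T.dist z y + 1 :=
  (hT.dist_eq_dist_add_one_of_adj z xy).symm

theorem tuniq (hT : T.IsTree) {x y y' z : W} (xy : T.Adj x y) (xy' : T.Adj x y')
    (h : T.dist z x = T.dist z y + 1) (h' : T.dist z x = T.dist z y' + 1) : y = y' := by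
  obtain ⟨p, hp⟩ := hT.connected.exists_walk_length_eq_dist y z
  obtain ⟨p', hp'⟩ := hT.connected.exists_walk_length_eq_dist y' z
  have h1 : (SimpleGraph.Walk.cons xy p).IsPath := by
    apply SimpleGraph.Walk.isPath_of_length_eq_dist
    rw [SimpleGraph.Walk.length_cons, hp, SimpleGraph.dist_comm, ← h, SimpleGraph.dist_comm]
  have h2 : (SimpleGraph.Walk.cons xy' p').IsPath := by
    apply SimpleGraph.Walk.isPath_of_length_eq_dist
    rw [SimpleGraph.Walk.length_cons, hp', SimpleGraph.dist_comm, ← h', SimpleGraph.dist_comm]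
  have h3 := (hT.existsUnique_path x z).unique h1 h2
  rw [SimpleGraph.Walk.cons.injEq] at h3
  exact h3.1

/-- `z` lies on the side of `y` of the edge `xy` -/
def Sd (T : SimpleGraph W) (x y z : W) : Prop := T.dist z y < T.dist z x

theorem not_sd (hT : T.IsTree) {x y : W} (xy : T.Adj x y) (z : W) : ¬ Sd T x y z ↔ Sd T y x z := by
  have := tstep hT xy z
  unfold Sd
  omega

theorem sd_self {x y : W} (xy : T.Adj x y) : Sd T x y y := by
  unfold Sd
  rw [SimpleGraph.dist_self, SimpleGraph.dist_eq_one_iff_adj.2 xy.symm]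
  omega

theorem sd_not {x y : W} : ¬ Sd T x y x := by
  unfold Sd
  rw [SimpleGraph.dist_self]
  omega

/-- the only edge which crosses the wall of `xy` is `xy` -/
theorem tcross (hT : T.IsTree) {x y u w : W} (xy : T.Adj x y) (uw : T.Adj u w)
    (hu : ¬ Sd T x y u) (hw : Sd T x y w) : u = x ∧ w = y := by
  rw [not_sd hT xy] at hu
  unfold Sd at hu hw
  have s1 := tstep hT xy u
  have s2 := tstep hT xy w
  have s3 := tstep hT uw x
  have s4 := tstep hT uw y
  have c : ∀ p q : W, T.dist p q = T.dist q p := fun p q => SimpleGraph.dist_comm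
  have c1 := c u x
  have c2 := c u y
  have c3 := c w x
  have c4 := c w y
  rcases Nat.eq_zero_or_pos (T.dist u x) with h0 | h0
  · refine ⟨hT.connected.dist_eq_zero_iff.1 h0, hT.connected.dist_eq_zero_iff.1 ?_⟩
    omega
  · exfalso
    -- the neighbour of `x` closer to `u`
    obtain ⟨p, hp⟩ := hT.connected.exists_walk_length_eq_dist x u
    cases p with
    | nil => simp at h0
    | @cons _ v _ xv q =>
      rw [SimpleGraph.Walk.length_cons] at hp
      have h1 : T.dist v u ≤ q.length := SimpleGraph.dist_le q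
      have s5 := tstep hT xv w
      have s6 := tstep hT xv u
      have s7 := tstep hT uw v
      have c5 := c u v
      have c6 := c w v
      have h2 : T.dist w x = T.dist w v + 1 := by omega
      have h3 := tuniq hT xy xv (z := w) (by omega) h2
      rw [h3] at s1 hu
      omega

/-- paths without backtracking are geodesics -/
theorem line_geod (hT : T.IsTree) {a : ℤ → W} (h1 : ∀ n, T.Adj (a n) (a (n + 1)))
    (h2 : ∀ n, a n ≠ a (n + 1 + 1)) (m n : ℤ) : (T.dist (a m) (a n) : ℤ) = |m - n| := by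
  have key : ∀ (m : ℤ) (k : ℕ), T.dist (a m) (a (m + k)) = k ∧
      T.dist (a m) (a (m + k + 1)) = k + 1 := by
    intro m k
    induction k with
    | zero =>
      refine ⟨by simp, ?_⟩
      rw [Nat.cast_zero, add_zero]
      exact SimpleGraph.dist_eq_one_iff_adj.2 (h1 m)
    | succ k ih =>
      obtain ⟨i1, i2⟩ := ih
      have e1 : m + ((k + 1 : ℕ) : ℤ) = m + k + 1 := by push_cast; ring
      rw [e1]
      refine ⟨i2, ?_⟩
      rcases tstep hT (h1 (m + k + 1)) (a m) with h3 | h3
      · omega
      · exfalso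
        refine h2 (m + k) (tuniq hT (h1 (m + k)).symm (h1 (m + k + 1)) (z := a m) ?_ h3)
        omega
  rcases le_total m n with h | h
  · obtain ⟨k, hk⟩ := Int.eq_ofNat_of_zero_le (sub_nonneg.2 h)
    obtain rfl : n = m + k := by omega
    rw [(key m k).1, show m - (m + k) = -(k : ℤ) by ring, abs_neg]
    simp
  · obtain ⟨k, hk⟩ := Int.eq_ofNat_of_zero_le (sub_nonneg.2 h)
    obtain rfl : m = n + k := by omega
    rw [SimpleGraph.dist_comm, (key n k).1, show n + k - n = (k : ℤ) by ring]
    simp

/-- a geodesic ray -/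
def Ray (T : SimpleGraph W) (r : ℕ → W) : Prop := ∀ m n, (T.dist (r m) (r n) : ℤ) = |(m : ℤ) - n|

theorem Ray.adj {r : ℕ → W} (hr : Ray T r) (n : ℕ) : T.Adj (r n) (r (n + 1)) := by
  apply SimpleGraph.dist_eq_one_iff_adj.1
  have := hr n (n + 1)
  rw [show ((n : ℤ) - ((n + 1 : ℕ) : ℤ)) = -1 by push_cast; ring] at this
  simpa using this

theorem Ray.inj {r : ℕ → W} (hr : Ray T r) {m n : ℕ} (h : r m = r n) : m = n := by
  have := hr m n
  rw [h, SimpleGraph.dist_self] at this
  have h2 : (m : ℤ) - n = 0 := abs_eq_zero.1 (by simpa using this.symm)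
  omega

theorem Ray.far {r : ℕ → W} (hr : Ray T r) {m n : ℕ} (hmn : n < m) : Sd T (r n) (r (n + 1)) (r m) := by
  unfold Sd
  have h1 := hr m (n + 1)
  have h2 := hr m n
  rw [abs_of_nonneg (by omega)] at h1 h2
  omega

theorem Ray.near {r : ℕ → W} (hr : Ray T r) {m n : ℕ} (hmn : m ≤ n) :
    ¬ Sd T (r n) (r (n + 1)) (r m) := by
  unfold Sd
  have h1 := hr m (n + 1)
  have h2 := hr m n
  rw [abs_of_nonpos (by omega)] at h1 h2
  omega

/-- the sides of the edges of a ray are nested -/
theorem Ray.anti (hT : T.IsTree) {r : ℕ → W} (hr : Ray T r) {m n : ℕ} (hmn : m ≤ n) {z : W}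
    (hz : Sd T (r n) (r (n + 1)) z) : Sd T (r m) (r (m + 1)) z := by
  induction n, hmn using Nat.le_induction with
  | base => exact hz
  | succ n hmn ih =>
    apply ih
    unfold Sd at hz ⊢
    have s1 := tstep hT (hr.adj n) z
    have s2 := tstep hT (hr.adj (n + 1)) z
    rcases s1 with s1 | s1
    · exfalso
      have := tuniq hT (hr.adj n).symm (hr.adj (n + 1)) (z := z) s1 (by omega)
      have := hr.inj this
      omega
    · omega

/-- a vertex lies beyond finitely many edges of a ray -/
theorem Ray.bdd (hT : T.IsTree) {r : ℕ → W} (hr : Ray T r) (z : W) :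
    ∃ N, ∀ n, N ≤ n → ¬ Sd T (r n) (r (n + 1)) z := by
  refine ⟨T.dist z (r 0), fun n hn hz => ?_⟩
  have key : ∀ m, m ≤ n + 1 → T.dist z (r m) + m = T.dist z (r 0) := by
    intro m
    induction m with
    | zero => simp
    | succ m ih =>
      intro hm
      have h1 := ih (by omega)
      have h2 : Sd T (r m) (r (m + 1)) z := hr.anti hT (by omega) hz
      unfold Sd at h2
      have s1 := tstep hT (hr.adj m) z
      omega
  have := key (n + 1) le_rfl
  omega

/-- if a ray passes eventually beyond all edges of another ray, then the rays merge -/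
theorem Ray.merge (hT : T.IsTree) {r r' : ℕ → W} (hr : Ray T r) (hr' : Ray T r')
    (h : ∀ n, ∃ m, Sd T (r n) (r (n + 1)) (r' m)) :
    ∃ n₀ m₀, ∀ t, r' (m₀ + t) = r (n₀ + t) := by
  classical
  obtain ⟨N, hN⟩ := hr.bdd hT (r' 0)
  -- the place where `r'` passes the edge `n` of `r`
  have key : ∀ n, N ≤ n → ∃ m, r' m = r n ∧ r' (m + 1) = r (n + 1) := by
    intro n hn
    have h1 := Nat.find_spec (h n)
    have h2 : Nat.find (h n) ≠ 0 := by
      intro h0
      rw [h0] at h1
      exact hN n hn h1
    obtain ⟨m, hm⟩ := Nat.exists_eq_succ_of_ne_zero h2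
    have h3 := Nat.find_min (h n) (show m < Nat.find (h n) by omega)
    rw [hm] at h1
    exact ⟨m, tcross hT (hr.adj n) (hr'.adj m) h3 h1⟩
  obtain ⟨m, hm1, hm2⟩ := key N le_rfl
  refine ⟨N, m, fun t => ?_⟩
  have step : ∀ t, r' (m + t) = r (N + t) ∧ r' (m + t + 1) = r (N + t + 1) := by
    intro t
    induction t with
    | zero => exact ⟨hm1, hm2⟩
    | succ t ih =>
      obtain ⟨m', h1, h2⟩ := key (N + t + 1) (by omega)
      have h3 : m' = m + t + 1 := hr'.inj (by rw [h1, ih.2])
      subst h3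
      exact ⟨ih.2, h2⟩
  exact (step t).1

variable (T) in
/-- closed under betweenness -/
def Cvx (P : Set W) : Prop :=
  ∀ x ∈ P, ∀ y ∈ P, ∀ z, T.dist x z + T.dist z y = T.dist x y → z ∈ P

theorem geod (hT : T.IsTree) (a b : W) : ∃ u : ℕ → W, u 0 = a ∧ u (T.dist a b) = b ∧
    (∀ i < T.dist a b, T.Adj (u i) (u (i + 1))) ∧
    ∀ i ≤ T.dist a b, T.dist a (u i) = i ∧ T.dist (u i) b = T.dist a b - i := by
  obtain ⟨p, hp⟩ := hT.connected.exists_walk_length_eq_dist a b
  refine ⟨p.getVert, p.getVert_zero, by rw [← hp, p.getVert_length],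
    fun i hi => p.adj_getVert_succ (by omega), ?_⟩
  have hle : ∀ i j : ℕ, i + j ≤ T.dist a b →
      T.dist (p.getVert i) (p.getVert (i + j)) ≤ j := by
    intro i j
    induction j with
    | zero => intro _; simp
    | succ j ih =>
      intro h
      have h1 := ih (by omega)
      have h2 := p.adj_getVert_succ (i := i + j) (by omega)
      have h3 := SimpleGraph.dist_eq_one_iff_adj.2 h2
      have h4 := hT.connected.dist_triangle (u := p.getVert i) (v := p.getVert (i + j))
        (w := p.getVert (i + j + 1))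
      rw [show i + (j + 1) = i + j + 1 by ring]
      omega
  intro i hi
  have h1 := hle 0 i (by omega)
  have h2 := hle i (T.dist a b - i) (by omega)
  rw [zero_add, p.getVert_zero] at h1
  rw [show i + (T.dist a b - i) = p.length by omega, p.getVert_length] at h2
  have h3 := hT.connected.dist_triangle (u := a) (v := p.getVert i) (w := b)
  omega

variable (T) in
/-- an invariant line -/
structure Axis (P : Set W) (σ : Equiv.Perm W) (ℓ : ℕ) (a : ℤ → W) : Prop where
  pos : 0 < ℓ
  mem : ∀ n, a n ∈ P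
  geo : ∀ m n : ℤ, (T.dist (a m) (a n) : ℤ) = |m - n|
  per : ∀ n, σ (a n) = a (n + ℓ)

namespace Axis

variable {P : Set W} {σ : Equiv.Perm W} {ℓ : ℕ} {a : ℤ → W}

theorem inj (h : Axis T P σ ℓ a) {m n : ℤ} (he : a m = a n) : m = n := by
  have := h.geo m n
  rw [he, SimpleGraph.dist_self] at this
  have h2 : m - n = 0 := abs_eq_zero.1 (by simpa using this.symm)
  omega

theorem adj (h : Axis T P σ ℓ a) (n : ℤ) : T.Adj (a n) (a (n + 1)) := by
  apply SimpleGraph.dist_eq_one_iff_adj.1
  have := h.geo n (n + 1)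
  rw [show n - (n + 1) = -1 by ring] at this
  simpa using this

theorem rev (h : Axis T P σ ℓ a) : Axis T P σ⁻¹ ℓ (fun n => a (-n)) where
  pos := h.pos
  mem n := h.mem _
  geo m n := by
    rw [h.geo, show -m - -n = -(m - n) by ring, abs_neg]
  per n := by
    rw [Equiv.Perm.inv_eq_iff_eq, h.per]
    congr 1
    ring

theorem per_nat (h : Axis T P σ ℓ a) (k : ℕ) (n : ℤ) : (σ ^ k) (a n) = a (n + k * ℓ) := by
  induction k with
  | zero => simp
  | succ k ih =>
    rw [pow_succ', Equiv.Perm.mul_apply, ih, h.per]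
    congr 1
    push_cast
    ring

end Axis

end Pool.Agent.H348.VH
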